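import Mathlib

/-!
# Elimination with bounded degree

Polynomials in fewer variables than their number satisfy a relation of bounded degree, and so the points of `F ^ N` whose
coordinates are the values of `N` fixed polynomials at points with fewer than `N` coordinates in extension fields are the zeros
of one polynomial of bounded degree.
-/

set_option autoImplicit false

namespace Pool.Agent.J6H36.FM

open MvPolynomial Module

section
variable {F : Type} [Field F] {σ ι : Type} [Fintype σ] [Fintype ι]

/-- exponent vector of a function -/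
noncomputable def hat {κ : Type} [Fintype κ] {E : ℕ} (α : κ → Fin (E + 1)) : κ →₀ ℕ :=
  Finsupp.equivFunOnFinite.symm fun i => (α i : ℕ)

theorem hat_apply {κ : Type} [Fintype κ] {E : ℕ} (α : κ → Fin (E + 1)) (i : κ) : hat α i = (α i : ℕ) := rfl

theorem hat_inj {κ : Type} [Fintype κ] {E : ℕ} {α β : κ → Fin (E + 1)} (h : hat α = hat β) : α = β := by
  funext i
  have := DFunLike.congr_fun h i
  rw [hat_apply, hat_apply] at this
  exact Fin.ext this

theorem hat_degree {κ : Type} [Fintype κ] {E : ℕ} (α : κ → Fin (E + 1)) : (hat α).sum (fun _ e => e) ≤ Fintype.card κ * E := by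
  rw [Finsupp.sum_fintype _ _ (fun _ => rfl)]
  refine (Finset.sum_le_card_nsmul Finset.univ _ E fun i _ => ?_).trans (by rw [Finset.card_univ, smul_eq_mul])
  rw [hat_apply]
  exact Nat.lt_succ_iff.1 (α i).2

/-- a relation between polynomials by counting monomials -/
theorem exists_rel (f : ι → MvPolynomial σ F) (d D : ℕ) (hf : ∀ i, (f i).totalDegree ≤ d)
    (hc : (Fintype.card ι * D * d + 1) ^ Fintype.card σ < (D + 1) ^ Fintype.card ι) :
    ∃ P : MvPolynomial ι F, P ≠ 0 ∧ P.totalDegree ≤ Fintype.card ι * D ∧ aeval f P = 0 := by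
  classical
  set E := Fintype.card ι * D * d with hE
  let B : Type := ι → Fin (D + 1)
  let pol : (B → F) →ₗ[F] MvPolynomial ι F :=
    { toFun := fun c => ∑ α : B, monomial (hat α) (c α)
      map_add' := fun c c' => by
        rw [← Finset.sum_add_distrib]
        exact Finset.sum_congr rfl fun α _ => by rw [Pi.add_apply, map_add]
      map_smul' := fun r c => by
        rw [RingHom.id_apply, Finset.smul_sum]
        exact Finset.sum_congr rfl fun α _ => by rw [Pi.smul_apply, smul_monomial] }
  have hpol : ∀ c : B → F, pol c = ∑ α : B, monomial (hat α) (c α) := fun _ => rfl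
  let co : MvPolynomial σ F →ₗ[F] ((σ → Fin (E + 1)) → F) :=
    { toFun := fun Q β => coeff (hat β) Q
      map_add' := fun Q Q' => by
        funext β
        exact coeff_add _ _ _
      map_smul' := fun r Q => by
        funext β
        exact coeff_smul _ _ _ }
  have hco : ∀ Q β, co Q β = coeff (hat β) Q := fun _ _ => rfl
  let Φ : (B → F) →ₗ[F] ((σ → Fin (E + 1)) → F) := co ∘ₗ (aeval (R := F) f).toLinearMap ∘ₗ pol
  have hker : LinearMap.ker Φ ≠ ⊥ := by
    apply LinearMap.ker_ne_bot_of_finrank_lt
    rw [finrank_fintype_fun_eq_card, finrank_fintype_fun_eq_card, Fintype.card_fun, Fintype.card_fun, Fintype.card_fin,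
      Fintype.card_fin]
    exact hc
  obtain ⟨c, hcΦ, hc0⟩ := (Submodule.ne_bot_iff _).1 hker
  rw [LinearMap.mem_ker] at hcΦ
  refine ⟨pol c, ?_, ?_, ?_⟩
  · intro h0
    apply hc0
    funext α
    have h1 := congrArg (coeff (hat α)) h0
    rw [hpol, coeff_sum, coeff_zero, Finset.sum_eq_single α] at h1
    · rwa [coeff_monomial, if_pos rfl] at h1
    · intro β _ hβ
      rw [coeff_monomial, if_neg fun h => hβ (hat_inj h)]
    · intro h
      exact absurd (Finset.mem_univ α) h
  · rw [hpol]
    refine totalDegree_finsetSum_le fun α _ => (totalDegree_monomial_le _ _).trans (hat_degree α)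
  · have hdeg : (aeval (R := F) f (pol c)).totalDegree ≤ E := by
      rw [hpol, map_sum]
      refine totalDegree_finsetSum_le fun α _ => ?_
      rw [aeval_monomial]
      refine (totalDegree_mul _ _).trans ?_
      have h1 : (algebraMap F (MvPolynomial σ F) (c α)).totalDegree = 0 := by
        rw [algebraMap_eq]
        exact totalDegree_C _
      rw [h1, zero_add]
      unfold Finsupp.prod
      refine (totalDegree_finsetProd _ _).trans ?_
      refine (Finset.sum_le_sum (g := fun _ => D * d) fun i _ => ?_).trans ?_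
      · refine (totalDegree_pow _ _).trans (Nat.mul_le_mul ?_ (hf i))
        rw [hat_apply]
        exact Nat.lt_succ_iff.1 (α i).2
      · rw [Finset.sum_const, smul_eq_mul, hE, mul_assoc]
        exact Nat.mul_le_mul_right _ (Finset.card_le_univ _)
    ext m
    rw [coeff_zero]
    by_cases hm : ∀ s, m s ≤ E
    · have h2 := congrFun hcΦ fun s => (⟨m s, Nat.lt_succ_iff.2 (hm s)⟩ : Fin (E + 1))
      have h3 : hat (fun s => (⟨m s, Nat.lt_succ_iff.2 (hm s)⟩ : Fin (E + 1))) = m := by
        ext s
        rw [hat_apply]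
      have h4 : Φ c (fun s => (⟨m s, Nat.lt_succ_iff.2 (hm s)⟩ : Fin (E + 1))) =
          coeff (hat (fun s => (⟨m s, Nat.lt_succ_iff.2 (hm s)⟩ : Fin (E + 1)))) (aeval (R := F) f (pol c)) := rfl
      rw [h4, h3] at h2
      exact h2
    · push Not at hm
      obtain ⟨s, hs⟩ := hm
      apply coeff_eq_zero_of_totalDegree_lt
      refine lt_of_le_of_lt hdeg (lt_of_lt_of_le hs ?_)
      refine Finset.single_le_sum (f := fun i => m i) (fun i _ => Nat.zero_le _) ?_
      rw [Finsupp.mem_support_iff]
      omega

/-- the degree bound -/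
def dgb (N d : ℕ) : ℕ := (N * d + 1) ^ (N - 1)

theorem dgb_pos (N d : ℕ) : 1 ≤ dgb N d := Nat.one_le_iff_ne_zero.2 (pow_ne_zero _ (Nat.succ_ne_zero _))

theorem dgb_ineq {N d : ℕ} (hN : 1 ≤ N) : (N * dgb N d * d + 1) ^ (N - 1) < (dgb N d + 1) ^ N := by
  set D := dgb N d with hD
  have h1 : N * D * d + 1 ≤ (N * d + 1) * D := by
    have := dgb_pos N d
    rw [← hD] at this
    nlinarith
  calc (N * D * d + 1) ^ (N - 1) ≤ ((N * d + 1) * D) ^ (N - 1) := Nat.pow_le_pow_left h1 _
    _ = D * D ^ (N - 1) := by rw [mul_pow, ← dgb, ← hD]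
    _ = D ^ N := by rw [← pow_succ', Nat.sub_add_cancel hN]
    _ < (D + 1) ^ N := Nat.pow_lt_pow_left (Nat.lt_succ_self _) (by omega)

end

section
variable {F : Type} [Field F] {ι : Type} [Fintype ι] [DecidableEq ι]

/-- the polynomial relation for families of polynomials over `ℤ` restricted to a coordinate hyperplane -/
theorem exists_hyper (i0 : ι) (f : ι → MvPolynomial ι ℤ) (d : ℕ) (hf : ∀ i, (f i).totalDegree ≤ d) :
    ∃ P : MvPolynomial ι F, P ≠ 0 ∧ P.totalDegree ≤ Fintype.card ι * dgb (Fintype.card ι) d ∧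
      ∀ (K : Type) [Field K] [Algebra F K] (t : ι → K), t i0 = 0 → ∀ x : ι → F,
        (∀ i, algebraMap F K (x i) = aeval t (f i)) → eval x P = 0 := by
  let σ : Type := {j : ι // j ≠ i0}
  let g : ι → MvPolynomial σ F := fun j => if h : j = i0 then 0 else X ⟨j, h⟩
  have hg : ∀ j, (g j).totalDegree ≤ 1 := by
    intro j
    simp only [g]
    split_ifs with h
    · rw [totalDegree_zero]
      exact Nat.zero_le _
    · exact (totalDegree_X _).le
  let f' : ι → MvPolynomial σ F := fun i => aeval g (f i)
  have hf' : ∀ i, (f' i).totalDegree ≤ d := by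
    intro i
    show (aeval g (f i)).totalDegree ≤ d
    have h1 : aeval g (f i) = ∑ m ∈ (f i).support, aeval g (monomial m (coeff m (f i))) := by
      rw [← map_sum, ← MvPolynomial.as_sum]
    rw [h1]
    refine totalDegree_finsetSum_le fun m hm => ?_
    rw [aeval_monomial]
    refine (totalDegree_mul _ _).trans ?_
    have h2 : (algebraMap ℤ (MvPolynomial σ F) (coeff m (f i))).totalDegree = 0 := by
      rw [eq_intCast, ← map_intCast (C : F →+* MvPolynomial σ F)]
      exact totalDegree_C _
    rw [h2, zero_add]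
    unfold Finsupp.prod
    refine (totalDegree_finsetProd _ _).trans ?_
    refine (Finset.sum_le_sum (g := fun j => m j) fun j _ => ?_).trans ((le_totalDegree hm).trans (hf i))
    exact (totalDegree_pow _ _).trans ((Nat.mul_le_mul_left _ (hg j)).trans (mul_one _).le)
  have hcard : Fintype.card σ = Fintype.card ι - 1 := by
    show Fintype.card {j : ι // j ≠ i0} = _
    rw [Fintype.card_subtype_compl, Fintype.card_subtype_eq]
  have hN : 1 ≤ Fintype.card ι := Fintype.card_pos_iff.2 ⟨i0⟩
  obtain ⟨P, hP0, hPd, hP⟩ := exists_rel f' d (dgb (Fintype.card ι) d) hf' (by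
    rw [hcard]
    exact dgb_ineq hN)
  refine ⟨P, hP0, hPd, ?_⟩
  intro K _ _ t ht x hx
  have h1 : ∀ i, aeval (fun s : σ => t s) (f' i) = aeval t (f i) := by
    intro i
    show aeval (fun s : σ => t s) (aeval g (f i)) = aeval t (f i)
    have h2 : (aeval (R := ℤ) t : MvPolynomial ι ℤ →ₐ[ℤ] K) =
        ((aeval (R := F) (fun s : σ => t s)).restrictScalars ℤ).comp (aeval (R := ℤ) g) := by
      apply MvPolynomial.algHom_ext
      intro j
      simp only [AlgHom.comp_apply, AlgHom.restrictScalars_apply, aeval_X, g]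
      split_ifs with h
      · rw [map_zero, h, ht]
      · rw [aeval_X]
    rw [h2]
    rfl
  have h3 : aeval (fun i => aeval t (f i)) P = (0 : K) := by
    have h4 : (fun i => aeval t (f i)) = fun i => aeval (R := F) (fun s : σ => t s) (f' i) := funext fun i => (h1 i).symm
    rw [h4]
    have h5 := congrArg (aeval (R := F) (fun s : σ => t s)) hP
    rw [map_zero] at h5
    rw [← h5]
    have h6 : (aeval (R := F) fun i => aeval (R := F) (fun s : σ => t s) (f' i)) =
        (aeval (R := F) (fun s : σ => t s)).comp (aeval (R := F) f') := by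
      apply MvPolynomial.algHom_ext
      intro j
      simp only [AlgHom.comp_apply, aeval_X]
    rw [h6]
    rfl
  apply (algebraMap F K).injective
  rw [map_zero, ← h3]
  have h7 : (fun i => aeval t (f i)) = fun i => algebraMap F K (x i) := funext fun i => (hx i).symm
  rw [h7]
  exact (MvPolynomial.aeval_algebraMap_apply (A := F) K x P).symm

end

section
variable {p : ℕ} [hpF : Fact p.Prime] {ι : Type} [Fintype ι] [DecidableEq ι]

/-- the number of zeros of a polynomial -/
theorem zeros_card (P : MvPolynomial ι (ZMod p)) (hP : P ≠ 0) :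
    ((Finset.univ : Finset (ι → ZMod p)).filter fun x => eval x P = 0).card * p ≤ P.totalDegree * p ^ Fintype.card ι := by
  classical
  have hp : p.Prime := hpF.out
  set n := Fintype.card ι with hn
  let e : ι ≃ Fin n := Fintype.equivFin ι
  set Q : MvPolynomial (Fin n) (ZMod p) := rename e P with hQ
  have hQ0 : Q ≠ 0 := by
    rw [hQ]
    intro h
    exact hP (rename_injective e e.injective (by rw [h, map_zero]))
  have hQd : Q.totalDegree ≤ P.totalDegree := totalDegree_rename_le e P
  have h1 := schwartz_zippel_totalDegree hQ0 (Finset.univ : Finset (ZMod p))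
  have h2 : ((Finset.univ : Finset (ι → ZMod p)).filter fun x => eval x P = 0).card =
      (Finset.filter (fun f => eval f Q = 0) (Fintype.piFinset fun _ : Fin n => (Finset.univ : Finset (ZMod p)))).card := by
    refine Finset.card_bij (fun x _ => fun j => x (e.symm j)) ?_ ?_ ?_
    · intro x hx
      refine Finset.mem_filter.2 ⟨by simp, ?_⟩
      rw [hQ, eval_rename]
      have : ((fun j => x (e.symm j)) ∘ e) = x := by
        funext i
        simp
      rw [this]
      exact (Finset.mem_filter.1 hx).2
    · intro x _ y _ hxy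
      funext i
      have := congrFun hxy (e i)
      simpa using this
    · intro y hy
      refine ⟨fun i => y (e i), Finset.mem_filter.2 ⟨Finset.mem_univ _, ?_⟩, ?_⟩
      · have := (Finset.mem_filter.1 hy).2
        rw [hQ, eval_rename] at this
        exact this
      · funext j
        simp
  rw [h2]
  rw [Finset.card_univ, ZMod.card] at h1
  have hp0 : (0 : ℚ≥0) < p := by exact_mod_cast hp.pos
  rw [div_le_div_iff₀ (pow_pos hp0 _) hp0] at h1
  have h3 : (Finset.filter (fun f => eval f Q = 0)
      (Fintype.piFinset fun _ : Fin n => (Finset.univ : Finset (ZMod p)))).card * p ≤ Q.totalDegree * p ^ n := by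
    exact_mod_cast h1
  exact h3.trans (Nat.mul_le_mul_right _ hQd)

/-- the number of points covered by finitely many families -/
theorem cover_card {Θ : Type} [Fintype Θ] (i0 : Θ → ι) (f : Θ → ι → MvPolynomial ι ℤ) (d : ℕ)
    (hf : ∀ θ i, (f θ i).totalDegree ≤ d) (Bad : Finset (ι → ZMod p))
    (hB : ∀ x ∈ Bad, ∃ (θ : Θ) (K : Type) (_ : Field K) (_ : Algebra (ZMod p) K) (t : ι → K), t (i0 θ) = 0 ∧
      ∀ i, algebraMap (ZMod p) K (x i) = aeval t (f θ i)) :
    Bad.card * p ≤ Fintype.card Θ * (Fintype.card ι * dgb (Fintype.card ι) d) * p ^ Fintype.card ι := by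
  classical
  choose P hP0 hPd hP using fun θ => exists_hyper (F := ZMod p) (i0 θ) (f θ) d (hf θ)
  have h1 : Bad ⊆ Finset.univ.biUnion fun θ => (Finset.univ : Finset (ι → ZMod p)).filter fun x => eval x (P θ) = 0 := by
    intro x hx
    obtain ⟨θ, K, _, _, t, ht, h⟩ := hB x hx
    exact Finset.mem_biUnion.2 ⟨θ, Finset.mem_univ _, Finset.mem_filter.2 ⟨Finset.mem_univ _, hP θ K t ht x h⟩⟩
  calc Bad.card * p ≤ (∑ θ, ((Finset.univ : Finset (ι → ZMod p)).filter fun x => eval x (P θ) = 0).card) * p :=
        Nat.mul_le_mul_right _ ((Finset.card_le_card h1).trans Finset.card_biUnion_le)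
    _ = ∑ θ, ((Finset.univ : Finset (ι → ZMod p)).filter fun x => eval x (P θ) = 0).card * p := Finset.sum_mul _ _ _
    _ ≤ ∑ _θ : Θ, (Fintype.card ι * dgb (Fintype.card ι) d) * p ^ Fintype.card ι :=
        Finset.sum_le_sum fun θ _ => (zeros_card (P θ) (hP0 θ)).trans (Nat.mul_le_mul_right _ (hPd θ))
    _ = _ := by rw [Finset.sum_const, Finset.card_univ, smul_eq_mul, ← mul_assoc]

end

end Pool.Agent.J6H36.FM
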