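import Pool.Agent.J6H36.FM.WtB
import Pool.Agent.J6H36.FM.Elim

/-!
# The number of exceptional linking data, over all fields of characteristic `p`
-/

set_option autoImplicit false

namespace Pool.Agent.J6H36.FM

open Finset MvPolynomial Pool.Agent.Q202.QT

section
variable {p : ℕ} [hpF : Fact p.Prime]

/-- the data are exceptional over some field of characteristic `p` -/
def BadE {k : ℕ} (D : Dat p k) : Prop :=
  (∃ i, (D.1 i).1 = 0) ∨ ∃ (K : Type) (_ : Field K) (φ : ZMod p →+* K),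
    ¬ NPi (fun l => φ (D.1 l).1) (fun l j => φ ((D.1 l).2 j)) (fun j => φ (D.2 j)) ∨
    ¬ NTi (fun l => φ (D.1 l).1) (fun l j => φ ((D.1 l).2 j)) (fun j => φ (D.2 j)) 0 ∨
    ¬ NTi (fun l => φ (D.1 l).1) (fun l j => φ ((D.1 l).2 j)) (fun j => φ (D.2 j)) 1

/-- a point is exceptional -/
def BadX {n : ℕ} (x : Ix n → ZMod p) : Prop :=
  (∃ l, x (Sum.inl (l, none)) = 0) ∨ ∃ (K : Type) (_ : Field K) (φ : ZMod p →+* K) (u : Fin n → K) (L : Fin n → Fin n → K)
    (b : Fin n → K), (∀ i, φ (x i) = dv u L b i) ∧ (PW u L b ∨ W3 u L b 0 ∨ W3 u L b 1)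

theorem two_map {K : Type} [Field K] (hp2 : p ≠ 2) (φ : ZMod p →+* K) : (2 : K) ≠ 0 := by
  have two : (2 : ZMod p) ≠ 0 := by
    intro h
    have h' : ((2 : ℕ) : ZMod p) = 0 := by exact_mod_cast h
    rw [ZMod.natCast_eq_zero_iff] at h'
    have := Nat.le_of_dvd (by norm_num) h'
    have := hpF.out.two_le
    omega
  intro h
  apply two
  apply φ.injective
  rw [map_ofNat, map_zero, h]

/-- the index of the families -/
abbrev Th (n : ℕ) : Type := Ty n ⊕ Tp n ⊕ Fin n

/-- the unused slot -/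
def slot {n : ℕ} : Th n → Ix n
  | Sum.inl θ => Sum.inr θ.c
  | Sum.inr (Sum.inl θ) => θ.i0
  | Sum.inr (Sum.inr l) => Sum.inl (l, none)

/-- the polynomials -/
noncomputable def pol {n : ℕ} : Th n → Ix n → MvPolynomial (Ix n) ℤ
  | Sum.inl θ => θ.par X
  | Sum.inr (Sum.inl θ) => θ.par X
  | Sum.inr (Sum.inr _) => X

theorem th_finite (n : ℕ) : Finite (Th n) := by
  have := ty_finite n
  have := tp_finite n
  infer_instance

theorem exists_deg (n : ℕ) : ∃ d : ℕ, ∀ θ i, (pol (n := n) θ i).totalDegree ≤ d := by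
  have := th_finite n
  obtain ⟨d, hd⟩ := (Set.finite_range fun x : Th n × Ix n => (pol x.1 x.2).totalDegree).bddAbove
  exact ⟨d, fun θ i => hd ⟨(θ, i), rfl⟩⟩

theorem aeval_ty {n : ℕ} (θ : Ty n) {K : Type} [Field K] (t : Ix n → K) (i : Ix n) :
    aeval t (θ.par (X : Ix n → MvPolynomial (Ix n) ℤ) i) = θ.par t i := by
  have h := θ.map_par (X : Ix n → MvPolynomial (Ix n) ℤ) (aeval t : MvPolynomial (Ix n) ℤ →ₐ[ℤ] K).toRingHom i
  have h1 : (fun i => (aeval t : MvPolynomial (Ix n) ℤ →ₐ[ℤ] K).toRingHom (X i)) = t := by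
    funext j
    exact aeval_X t j
  rw [h1] at h
  exact h.symm

theorem aeval_tp {n : ℕ} (θ : Tp n) {K : Type} [Field K] (t : Ix n → K) (i : Ix n) :
    aeval t (θ.par (X : Ix n → MvPolynomial (Ix n) ℤ) i) = θ.par t i := by
  have h := θ.map_par (X : Ix n → MvPolynomial (Ix n) ℤ) (aeval t : MvPolynomial (Ix n) ℤ →ₐ[ℤ] K).toRingHom i
  have h1 : (fun i => (aeval t : MvPolynomial (Ix n) ℤ →ₐ[ℤ] K).toRingHom (X i)) = t := by
    funext j
    exact aeval_X t j
  rw [h1] at h
  exact h.symm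

theorem badX_cover (hp2 : p ≠ 2) {n : ℕ} {x : Ix n → ZMod p} (hx : BadX x) :
    ∃ (θ : Th n) (K : Type) (_ : Field K) (_ : Algebra (ZMod p) K) (t : Ix n → K), t (slot θ) = 0 ∧
      ∀ i, algebraMap (ZMod p) K (x i) = aeval t (pol θ i) := by
  rcases hx with ⟨l, hl⟩ | ⟨K, _, φ, u, L, b, hdv, h⟩
  · refine ⟨Sum.inr (Sum.inr l), ZMod p, inferInstance, inferInstance, x, hl, fun i => ?_⟩
    show _ = aeval x (X i : MvPolynomial (Ix n) ℤ)
    rw [aeval_X]
    rfl
  · have w3 : ∀ ε : K, (ε = 0 ∨ ε = 1) → W3 u L b ε → ∃ (θ : Th n) (K : Type) (_ : Field K) (_ : Algebra (ZMod p) K)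
        (t : Ix n → K), t (slot θ) = 0 ∧ ∀ i, algebraMap (ZMod p) K (x i) = aeval t (pol θ i) := by
      intro ε hε h3
      obtain ⟨θ, t, ht, hpar⟩ := w3_par (two_map hp2 φ) hε h3
      refine ⟨Sum.inl θ, K, inferInstance, φ.toAlgebra, t, ht, fun i => ?_⟩
      show φ (x i) = aeval t (θ.par X i)
      rw [aeval_ty, hpar, hdv]
    rcases h with h | h | h
    · obtain ⟨θ, t, ht, hpar⟩ := pw_par h
      refine ⟨Sum.inr (Sum.inl θ), K, inferInstance, φ.toAlgebra, t, ht, fun i => ?_⟩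
      show φ (x i) = aeval t (θ.par X i)
      rw [aeval_tp, hpar, hdv]
    · exact w3 0 (Or.inl rfl) h
    · exact w3 1 (Or.inr rfl) h

/-- the point with the given data and a new diagonal -/
def pt {n : ℕ} (D : Dat p n) (s : Fin n → ZMod p) : Ix n → ZMod p :=
  dv (fun l => (D.1 l).1) (fun l j => if j = l then s l else (D.1 l).2 j) D.2

theorem pt_bad (hp2 : p ≠ 2) {n : ℕ} {D : Dat p n} (hD : BadE D) (s : Fin n → ZMod p) : BadX (pt D s) := by
  by_cases hu : ∃ i, (D.1 i).1 = 0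
  · exact Or.inl hu
  · right
    obtain ⟨K, _, φ, h⟩ := hD.resolve_left hu
    have hu' : ∀ l, φ (D.1 l).1 ≠ 0 := fun l h0 => hu ⟨l, φ.injective (by rw [h0, map_zero])⟩
    refine ⟨K, inferInstance, φ, fun l => φ (D.1 l).1, fun l j => φ (if j = l then s l else (D.1 l).2 j), fun j => φ (D.2 j),
      ?_, ?_⟩
    · rintro (⟨l, _ | j⟩ | j) <;> rfl
    have hL : ∀ l j, j ≠ l → φ (if j = l then s l else (D.1 l).2 j) = φ ((D.1 l).2 j) := by
      intro l j hj
      rw [if_neg hj]
    rcases h with h | h | h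
    · exact Or.inl (pw_diag hL (np_witness hu' h))
    · rcases nt_witness (two_map hp2 φ) hu' h with h | h
      · exact Or.inr (Or.inl (w3_diag hL h))
      · exact Or.inl (pw_diag hL h)
    · rcases nt_witness (two_map hp2 φ) hu' h with h | h
      · exact Or.inr (Or.inr (w3_diag hL h))
      · exact Or.inl (pw_diag hL h)

theorem pt_inj {n : ℕ} {D D' : Dat p n} {s s' : Fin n → ZMod p} (hD : ∀ l, (D.1 l).2 l = 0) (hD' : ∀ l, (D'.1 l).2 l = 0)
    (h : pt D s = pt D' s') : D = D' ∧ s = s' := by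
  have h1 : ∀ l, (D.1 l).1 = (D'.1 l).1 := fun l => congrFun h (Sum.inl (l, none))
  have h2 : ∀ l j, (if j = l then s l else (D.1 l).2 j) = if j = l then s' l else (D'.1 l).2 j := fun l j =>
    congrFun h (Sum.inl (l, some j))
  have h3 : ∀ j, D.2 j = D'.2 j := fun j => congrFun h (Sum.inr j)
  constructor
  · refine Prod.ext (funext fun l => Prod.ext (h1 l) (funext fun j => ?_)) (funext h3)
    by_cases hj : j = l
    · rw [hj, hD, hD']
    · have := h2 l j
      rwa [if_neg hj, if_neg hj] at this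
  · funext l
    have := h2 l l
    rwa [if_pos rfl, if_pos rfl] at this

end

open Classical in
/-- the number of exceptional data -/
theorem exists_const (n : ℕ) : ∃ C : ℕ, ∀ (p : ℕ) [Fact p.Prime], p ≠ 2 →
    ((Z p n).filter fun D => BadE D).card * p ≤ C * p ^ (n ^ 2 + n) := by
  obtain ⟨d, hd⟩ := exists_deg n
  have hf := th_finite n
  have hft : Fintype (Th n) := Fintype.ofFinite _
  refine ⟨Fintype.card (Th n) * (Fintype.card (Ix n) * dgb (Fintype.card (Ix n)) d), ?_⟩
  intro p hpF hp2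
  have hp : p.Prime := hpF.out
  set BB : Finset (Ix n → ZMod p) := univ.filter fun x => BadX x with hBB
  have h1 := cover_card slot pol d hd BB (fun x hx => badX_cover hp2 (mem_filter.1 hx).2)
  have hcard : Fintype.card (Ix n) = n ^ 2 + n + n := by
    show Fintype.card ((Fin n × Option (Fin n)) ⊕ Fin n) = _
    rw [Fintype.card_sum, Fintype.card_prod, Fintype.card_option, Fintype.card_fin]
    ring
  have h2 : ((Z p n).filter fun D => BadE D).card * p ^ n ≤ BB.card := by
    have h3 : (((Z p n).filter fun D => BadE D) ×ˢ (univ : Finset (Fin n → ZMod p))).card =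
        ((Z p n).filter fun D => BadE D).card * p ^ n := by
      rw [card_product, card_univ, Fintype.card_fun, ZMod.card, Fintype.card_fin]
    rw [← h3]
    refine card_le_card_of_injOn (fun z => pt z.1 z.2) ?_ ?_
    · intro z hz
      have hz' := (mem_product.1 (mem_coe.1 hz)).1
      exact mem_coe.2 (mem_filter.2 ⟨mem_univ _, pt_bad hp2 (mem_filter.1 hz').2 _⟩)
    · rintro ⟨D, s⟩ hz ⟨D', s'⟩ hz' h
      have a1 := (mem_filter.1 (mem_product.1 (mem_coe.1 hz)).1).1
      have a2 := (mem_filter.1 (mem_product.1 (mem_coe.1 hz')).1).1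
      have b1 : ∀ l, (D.1 l).2 l = 0 := (mem_filter.1 a1).2
      have b2 : ∀ l, (D'.1 l).2 l = 0 := (mem_filter.1 a2).2
      obtain ⟨r1, r2⟩ := pt_inj b1 b2 h
      exact Prod.ext r1 r2
  have hpn : 0 < p ^ n := pow_pos hp.pos n
  refine Nat.le_of_mul_le_mul_right (c := p ^ n) ?_ hpn
  calc ((Z p n).filter fun D => BadE D).card * p * p ^ n = ((Z p n).filter fun D => BadE D).card * p ^ n * p := by ring
    _ ≤ BB.card * p := Nat.mul_le_mul_right _ h2
    _ ≤ _ := h1
    _ = _ := by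
      rw [hcard, pow_add p (n ^ 2 + n) n]
      ring

end Pool.Agent.J6H36.FM
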