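import Pool.Agent.J6H36.FM.Bad

/-!
# Nested counting of tuples, over all fields
-/

set_option autoImplicit false

namespace Pool.Agent.J6H36.FM

open Finset Matrix Pool.Agent.TH831.OT Pool.Agent.TH831.OE Pool.Agent.Q202.QT

section
variable {p : ℕ} [hpF : Fact p.Prime]

theorem badE_colsc1 {k : ℕ} {c : Fin k → ZMod p} (hc : ∀ j, c j ≠ 0) {D : Dat p k} (h : BadE (colsc c D)) : BadE D := by
  rcases h with ⟨i, hi⟩ | ⟨K, _, φ, h⟩
  · exact Or.inl ⟨i, hi⟩
  right
  refine ⟨K, inferInstance, φ, ?_⟩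
  have hc' : ∀ j, φ (c j) ≠ 0 := fun j h0 => hc j (φ.injective (by rw [h0, map_zero]))
  by_contra hD
  push Not at hD
  obtain ⟨h2, h3, h4⟩ := hD
  have e1 : (fun l j => φ (((colsc c D).1 l).2 j)) = fun l j => φ (c j) * φ ((D.1 l).2 j) := by
    funext l j
    exact map_mul φ _ _
  have e2 : (fun j => φ ((colsc c D).2 j)) = fun j => φ (c j) * φ (D.2 j) := by
    funext j
    exact map_mul φ _ _
  rw [e1, e2] at h
  rcases h with h | h | h
  · exact h (npi_colsc hc' h2)
  · exact h (nti_colsc hc' h3)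
  · exact h (nti_colsc hc' h4)

theorem badE_colsc {k : ℕ} {c : Fin k → ZMod p} (hc : ∀ j, c j ≠ 0) (D : Dat p k) : BadE (colsc c D) ↔ BadE D := by
  refine ⟨badE_colsc1 hc, fun h => badE_colsc1 (c := fun j => (c j)⁻¹) (fun j => inv_ne_zero (hc j)) ?_⟩
  rw [colsc_inv hc]
  exact h

open Classical in
/-- number of bad completions -/
noncomputable def NbE : (m k : ℕ) → Dat p k → ℕ
  | 0, _, D => if BadE D then 1 else 0
  | m + 1, k, D => ∑ w, ∑ s, NbE m (k + 1) (ext D w s)

theorem NbE_colsc (m : ℕ) : ∀ (k : ℕ) (c : Fin k → ZMod p), (∀ j, c j ≠ 0) → ∀ D : Dat p k, NbE m k (colsc c D) = NbE m k D := by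
  classical
  induction m with
  | zero =>
    intro k c hc D
    unfold NbE
    rw [if_congr (badE_colsc hc D) rfl rfl]
  | succ m ih =>
    intro k c hc D
    unfold NbE
    refine sum_congr rfl fun w _ => ?_
    have hcc := cons_ne hc (one_ne_zero (α := ZMod p))
    have hbij : Function.Bijective fun (s : Fin (k + 1) → ZMod p) => fun i =>
        (Fin.cons (α := fun _ => ZMod p) 1 c : Fin (k + 1) → ZMod p) i * s i := by
      rw [← Finite.injective_iff_bijective]
      intro s s' h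
      funext i
      exact mul_left_cancel₀ (hcc i) (congrFun h i)
    rw [← hbij.sum_comp]
    refine sum_congr rfl fun s _ => ?_
    rw [ext_colsc, ih (k + 1) _ hcc]

theorem NbE_wsc (m k : ℕ) {c : ZMod p} (hc : c ≠ 0) (D : Dat p k) (w s : Fin (k + 1) → ZMod p) :
    NbE m (k + 1) (ext D (fun i => c * w i) s) = NbE m (k + 1) (ext D w s) := by
  rw [ext_wsc, NbE_colsc m (k + 1) _ (cons_ne (fun _ => one_ne_zero) hc)]

open Classical in
theorem NbE_sum (m : ℕ) : ∀ (k n : ℕ), k + m = n → ∑ D ∈ Z p k, NbE m k D ≤ ((Z p n).filter fun D => BadE D).card := by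
  induction m with
  | zero =>
    intro k n hn
    obtain rfl : k = n := by omega
    unfold NbE
    rw [card_filter]
  | succ m ih =>
    intro k n hn
    refine le_trans ?_ (ih (k + 1) n (by omega))
    have h1 : ∑ D ∈ Z p k, NbE (m + 1) k D =
        ∑ z ∈ (Z p k) ×ˢ ((univ : Finset (Fin (k + 1) → ZMod p)) ×ˢ (univ : Finset (Fin (k + 1) → ZMod p))),
          NbE m (k + 1) (ext z.1 z.2.1 z.2.2) := by
      rw [sum_product]
      refine sum_congr rfl fun D _ => ?_
      rw [sum_product]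
      rfl
    rw [h1]
    rw [← sum_image (f := fun D' => NbE m (k + 1) D') (g := fun z : Dat p k × ((Fin (k + 1) → ZMod p) × (Fin (k + 1) → ZMod p)) =>
      ext z.1 z.2.1 z.2.2) (by
        rintro ⟨D, w, s⟩ _ ⟨D', w', s'⟩ _ h
        obtain ⟨e1, e2, e3⟩ := ext_inj h
        exact Prod.ext e1 (Prod.ext e2 e3))]
    refine sum_le_sum_of_subset ?_
    intro D' hD'
    obtain ⟨⟨D, w, s⟩, hz, rfl⟩ := mem_image.1 hD'
    have hD := (mem_product.1 hz).1
    refine mem_filter.2 ⟨mem_univ _, fun l => ?_⟩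
    refine Fin.cases ?_ (fun l' => ?_) l
    · rfl
    · exact (mem_filter.1 hD).2 l'

/-- few bad completions -/
def GdE (η : ℝ) (m k : ℕ) (D : Dat p k) : Prop := (NbE m k D : ℝ) < η ^ m * (tot p m k : ℝ)

open Classical in
theorem ge_step {η : ℝ} (hη : 0 < η) {m k : ℕ} {D : Dat p k} (h : GdE η (m + 1) k D) :
    (1 - η) * ((p : ℝ) ^ (k + 1) * (p : ℝ) ^ (k + 1)) - (p : ℝ) ^ (k + 1) ≤
      ((∑ w : Fin (k + 1) → ZMod p, ((univ : Finset (Fin (k + 1) → ZMod p)).filter fun s =>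
        w ≠ 0 ∧ GdE η m (k + 1) (ext D w s)).card : ℕ) : ℝ) := by
  have hp : p.Prime := hpF.out
  have hp0 : (0 : ℝ) < p := by exact_mod_cast hp.pos
  have ht : (0 : ℝ) < (tot p m (k + 1) : ℝ) := by
    unfold tot
    push_cast
    positivity
  let V : Type := Fin (k + 1) → ZMod p
  have hVc : Fintype.card V = p ^ (k + 1) := by
    show Fintype.card (Fin (k + 1) → ZMod p) = p ^ (k + 1)
    rw [Fintype.card_fun, ZMod.card, Fintype.card_fin]
  set Bd : Finset (V × V) := univ.filter fun z => ¬ GdE η m (k + 1) (ext D z.1 z.2) with hBd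
  set Gg : Finset (V × V) := univ.filter fun z => z.1 ≠ 0 ∧ GdE η m (k + 1) (ext D z.1 z.2) with hGg
  have h1 : (∑ w : V, ((univ : Finset V).filter fun s => w ≠ 0 ∧ GdE η m (k + 1) (ext D w s)).card) = Gg.card := by
    rw [hGg, card_filter, Fintype.sum_prod_type]
    refine sum_congr rfl fun w _ => ?_
    rw [card_filter]
  rw [h1]
  have h2 : (Bd.card : ℝ) * (η ^ m * (tot p m (k + 1) : ℝ)) ≤ (NbE (m + 1) k D : ℝ) := by
    have h3 : (NbE (m + 1) k D : ℝ) = ∑ z : V × V, (NbE m (k + 1) (ext D z.1 z.2) : ℝ) := by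
      rw [Fintype.sum_prod_type]
      show ((∑ w, ∑ s, NbE m (k + 1) (ext D w s) : ℕ) : ℝ) = _
      push_cast
      rfl
    rw [h3, ← nsmul_eq_mul, ← sum_const]
    refine (sum_le_sum (g := fun z : V × V => (NbE m (k + 1) (ext D z.1 z.2) : ℝ)) fun z hz => ?_).trans
      (sum_le_sum_of_subset_of_nonneg (subset_univ Bd) fun z _ _ => Nat.cast_nonneg _)
    exact not_lt.1 (mem_filter.1 hz).2
  have h4 : (Bd.card : ℝ) < η * ((p : ℝ) ^ (k + 1) * (p : ℝ) ^ (k + 1)) := by
    unfold GdE at h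
    rw [tot_succ] at h
    have h5 := lt_of_le_of_lt h2 h
    have h6 : η ^ (m + 1) * ((p ^ (2 * (k + 1)) * tot p m (k + 1) : ℕ) : ℝ) =
        η * ((p : ℝ) ^ (k + 1) * (p : ℝ) ^ (k + 1)) * (η ^ m * (tot p m (k + 1) : ℝ)) := by
      push_cast
      ring
    rw [h6] at h5
    exact lt_of_mul_lt_mul_right h5 (by positivity)
  have h7 : (univ : Finset (V × V)).card ≤ Gg.card + Bd.card + (({0} : Finset V) ×ˢ (univ : Finset V)).card := by
    refine (card_le_card (t := Gg ∪ Bd ∪ (({0} : Finset V) ×ˢ (univ : Finset V))) ?_).trans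
      ((card_union_le _ _).trans (Nat.add_le_add_right (card_union_le _ _) _))
    intro z _
    by_cases hz : z.1 = 0
    · exact mem_union_right _ (mem_product.2 ⟨mem_singleton.2 hz, mem_univ _⟩)
    · by_cases hg : GdE η m (k + 1) (ext D z.1 z.2)
      · exact mem_union_left _ (mem_union_left _ (mem_filter.2 ⟨mem_univ _, hz, hg⟩))
      · exact mem_union_left _ (mem_union_right _ (mem_filter.2 ⟨mem_univ _, hg⟩))
  rw [card_univ, Fintype.card_prod, card_product, card_singleton, one_mul, card_univ, hVc] at h7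
  have h8 : ((p : ℝ) ^ (k + 1) * (p : ℝ) ^ (k + 1)) ≤ (Gg.card : ℝ) + (Bd.card : ℝ) + (p : ℝ) ^ (k + 1) := by
    exact_mod_cast h7
  nlinarith

/-- no bad completions at the end -/
theorem ge_zero {η : ℝ} {k : ℕ} {D : Dat p k} (h : GdE η 0 k D) : ¬ BadE D := by
  classical
  intro hb
  unfold GdE NbE at h
  rw [if_pos hb, tot] at h
  norm_num at h


open Classical in
/-- the start of the recursion -/
theorem ge_init {n C : ℕ} (hC : ((Z p n).filter fun D => BadE D).card * p ≤ C * p ^ (n ^ 2 + n)) {η : ℝ}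
    (h : (C : ℝ) < η ^ n * p) (D : Dat p 0) : GdE η n 0 D := by
  classical
  have hp : p.Prime := hpF.out
  have hp0 : (0 : ℝ) < p := by exact_mod_cast hp.pos
  have h1 : NbE n 0 D ≤ ((Z p n).filter fun D => BadE D).card := by
    refine le_trans ?_ (NbE_sum n 0 n (by omega))
    exact single_le_sum (f := fun D => NbE n 0 D) (fun _ _ => Nat.zero_le _) (mem_filter.2 ⟨mem_univ _, fun l => l.elim0⟩)
  have h2 : ((((Z p n).filter fun D => BadE D).card : ℕ) : ℝ) * p ≤ C * (p : ℝ) ^ (n ^ 2 + n) := by exact_mod_cast hC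
  have h3 : (NbE n 0 D : ℝ) * p ≤ C * (p : ℝ) ^ (n ^ 2 + n) :=
    le_trans (mul_le_mul_of_nonneg_right (by exact_mod_cast h1) hp0.le) h2
  unfold GdE tot
  have h4 : (0 : ℝ) < (p : ℝ) ^ (n ^ 2 + n) := by positivity
  have h5 : (NbE n 0 D : ℝ) * p < (η ^ n * (p : ℝ) ^ (n ^ 2 + n)) * p := by
    refine lt_of_le_of_lt h3 ?_
    calc (C : ℝ) * (p : ℝ) ^ (n ^ 2 + n) < (η ^ n * p) * (p : ℝ) ^ (n ^ 2 + n) :=
          mul_lt_mul_of_pos_right h h4
      _ = _ := by ring
  have h6 := lt_of_mul_lt_mul_right h5 hp0.le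
  simpa using h6

end

end Pool.Agent.J6H36.FM
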