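import Mathlib

/-!
# Parametrisation of the linking data which admit a triple of lines
-/

set_option autoImplicit false

namespace Pool.Agent.J6H36.FM

/-- index set of the linking data of `n` primes -/
abbrev Ix (n : ℕ) : Type := (Fin n × Option (Fin n)) ⊕ Fin n

/-- the vector of the data -/
def dv {n : ℕ} {R : Type} (u : Fin n → R) (L : Fin n → Fin n → R) (b : Fin n → R) : Ix n → R
  | Sum.inl (l, none) => u l
  | Sum.inl (l, some j) => L l j
  | Sum.inr j => b j

/-- combinatorial types of the triples of lines -/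
structure Ty (n : ℕ) where
  i1 : Fin n
  i2 : Fin n
  i3 : Fin n
  z : Fin n → Bool
  k : Fin n → Bool
  a : Fin n → Fin n
  b : Fin n → Fin n
  kv : Bool
  c : Fin n
  e : Bool

theorem ty_finite (n : ℕ) : Finite (Ty n) := by
  let f : Ty n → (Fin n × Fin n × Fin n) × (Fin n → Bool) × (Fin n → Bool) × (Fin n → Fin n) × (Fin n → Fin n) × Bool × Fin n ×
      Bool := fun θ => ((θ.i1, θ.i2, θ.i3), θ.z, θ.k, θ.a, θ.b, θ.kv, θ.c, θ.e)
  apply Finite.of_injective f
  rintro ⟨_, _, _, _, _, _, _, _, _, _⟩ ⟨_, _, _, _, _, _, _, _, _, _⟩ h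
  simp only [f, Prod.mk.injEq] at h
  obtain ⟨⟨h1, h2, h3⟩, h4, h5, h6, h7, h8, h9, h10⟩ := h
  subst h1 h2 h3 h4 h5 h6 h7 h8 h9 h10
  rfl

namespace Ty

section
variable {n : ℕ} (θ : Ty n) {R : Type} [CommRing R] (t : Ix n → R)

def w0 (l : Fin n) : R := if θ.z l then 0 else if l = θ.i1 then 1 else if l = θ.i2 then 0 else if l = θ.i3 then 1 else
  if θ.k l then 1 else t (Sum.inl (l, some (θ.b l)))

def w1 (l : Fin n) : R := if θ.z l then 0 else if l = θ.i1 then 0 else if l = θ.i2 then 1 else if l = θ.i3 then 1 else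
  if θ.k l then t (Sum.inl (l, some (θ.b l))) else 1

def ts (l : Fin n) : R := t (Sum.inl (l, some (θ.a l)))

def U0 : R := t (Sum.inl (θ.i1, some (θ.b θ.i1)))

def U1 : R := t (Sum.inl (θ.i2, some (θ.b θ.i2)))

def v0 : R := if θ.kv then 1 else 0

def v1 : R := if θ.kv then t (Sum.inl (θ.i3, some (θ.b θ.i3))) else 1

def ep : R := if θ.e then 1 else 0

def Bw0 (l : Fin n) : R := -(θ.v1 t * θ.U0 t + θ.v0 (R := R) * θ.U1 t) * θ.w0 t l + 2 * θ.v0 (R := R) * θ.U0 t * θ.w1 t l -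
  θ.ep (R := R) * θ.w0 t l

def Bw1 (l : Fin n) : R := -(2 * θ.v1 t * θ.U1 t) * θ.w0 t l + (θ.v0 (R := R) * θ.U1 t + θ.v1 t * θ.U0 t) * θ.w1 t l -
  θ.ep (R := R) * θ.w1 t l

/-- the wedge of the kernels of `T i` and `T j` -/
def W (i j : Fin n) : R := θ.w0 t i * θ.w1 t j - θ.w1 t i * θ.w0 t j

def Rr0 (l : Fin n) : R := t (Sum.inl (l, none)) * θ.Bw0 t l +
  ∑ j, if j = θ.a l ∨ j = θ.b l then 0 else t (Sum.inl (l, some j)) * (θ.ts t j * θ.W t j l * θ.w0 t j)

def Rr1 (l : Fin n) : R := t (Sum.inl (l, none)) * θ.Bw1 t l +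
  ∑ j, if j = θ.a l ∨ j = θ.b l then 0 else t (Sum.inl (l, some j)) * (θ.ts t j * θ.W t j l * θ.w1 t j)

def Dl (l : Fin n) : R := θ.ts t (θ.a l) * θ.ts t (θ.b l) * θ.W t (θ.a l) l * θ.W t (θ.b l) l * θ.W t (θ.a l) (θ.b l)

def q (j : Fin n) : R := θ.ts t j * (θ.w0 t j * θ.v1 t - θ.w1 t j * θ.v0 (R := R)) ^ 2

def par : Ix n → R
  | Sum.inl (l, none) => if θ.z l then t (Sum.inl (l, none)) else θ.Dl t l * t (Sum.inl (l, none))
  | Sum.inl (l, some j) => if θ.z l then t (Sum.inl (l, some j)) else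
      if j = θ.a l then -(θ.ts t (θ.b l) * θ.W t (θ.b l) l * (θ.Rr0 t l * θ.w1 t (θ.b l) - θ.Rr1 t l * θ.w0 t (θ.b l))) else
      if j = θ.b l then -(θ.ts t (θ.a l) * θ.W t (θ.a l) l * (θ.w0 t (θ.a l) * θ.Rr1 t l - θ.w1 t (θ.a l) * θ.Rr0 t l)) else
      θ.Dl t l * t (Sum.inl (l, some j))
  | Sum.inr j => if j = θ.c then -∑ i, if i = θ.c then 0 else θ.q t i * t (Sum.inr i) else θ.q t θ.c * t (Sum.inr j)

variable {R' : Type} [CommRing R'] (φ : R →+* R')

theorem map_w0 (l : Fin n) : θ.w0 (fun i => φ (t i)) l = φ (θ.w0 t l) := by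
  unfold w0
  split_ifs <;> simp

theorem map_w1 (l : Fin n) : θ.w1 (fun i => φ (t i)) l = φ (θ.w1 t l) := by
  unfold w1
  split_ifs <;> simp

theorem map_ts (l : Fin n) : θ.ts (fun i => φ (t i)) l = φ (θ.ts t l) := rfl

theorem map_U0 : θ.U0 (fun i => φ (t i)) = φ (θ.U0 t) := rfl

theorem map_U1 : θ.U1 (fun i => φ (t i)) = φ (θ.U1 t) := rfl

theorem map_v0 : θ.v0 (R := R') = φ (θ.v0 (R := R)) := by
  unfold v0
  split_ifs <;> simp

theorem map_v1 : θ.v1 (fun i => φ (t i)) = φ (θ.v1 t) := by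
  unfold v1
  split_ifs <;> simp

theorem map_ep : θ.ep (R := R') = φ (θ.ep (R := R)) := by
  unfold ep
  split_ifs <;> simp

theorem map_Bw0 (l : Fin n) : θ.Bw0 (fun i => φ (t i)) l = φ (θ.Bw0 t l) := by
  unfold Bw0
  rw [map_w0, map_w1, map_U0, map_U1, map_v1, map_v0 θ φ, map_ep θ φ]
  simp only [map_sub, map_add, map_mul, map_neg, map_ofNat]

theorem map_Bw1 (l : Fin n) : θ.Bw1 (fun i => φ (t i)) l = φ (θ.Bw1 t l) := by
  unfold Bw1
  rw [map_w0, map_w1, map_U0, map_U1, map_v1, map_v0 θ φ, map_ep θ φ]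
  simp only [map_sub, map_add, map_mul, map_neg, map_ofNat]

theorem map_W (i j : Fin n) : θ.W (fun i => φ (t i)) i j = φ (θ.W t i j) := by
  unfold W
  rw [map_w0, map_w1, map_w0, map_w1]
  simp only [map_sub, map_mul]

theorem map_Rr0 (l : Fin n) : θ.Rr0 (fun i => φ (t i)) l = φ (θ.Rr0 t l) := by
  unfold Rr0
  rw [map_Bw0]
  simp only [map_add, map_mul, map_sum]
  congr 1
  refine Finset.sum_congr rfl fun j _ => ?_
  rw [map_W, map_ts, map_w0]
  split_ifs <;> simp

theorem map_Rr1 (l : Fin n) : θ.Rr1 (fun i => φ (t i)) l = φ (θ.Rr1 t l) := by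
  unfold Rr1
  rw [map_Bw1]
  simp only [map_add, map_mul, map_sum]
  congr 1
  refine Finset.sum_congr rfl fun j _ => ?_
  rw [map_W, map_ts, map_w1]
  split_ifs <;> simp

theorem map_Dl (l : Fin n) : θ.Dl (fun i => φ (t i)) l = φ (θ.Dl t l) := by
  unfold Dl
  rw [map_W, map_W, map_W, map_ts, map_ts]
  simp only [map_mul]

theorem map_q (l : Fin n) : θ.q (fun i => φ (t i)) l = φ (θ.q t l) := by
  unfold q
  rw [map_w0, map_w1, map_v1, map_v0 θ φ, map_ts]
  simp only [map_mul, map_sub, map_pow]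

theorem map_par (i : Ix n) : θ.par (fun i => φ (t i)) i = φ (θ.par t i) := by
  rcases i with ⟨l, _ | j⟩ | j
  · simp only [par]
    rw [map_Dl]
    split_ifs <;> simp
  · simp only [par]
    rw [map_Dl, map_W, map_W, map_ts, map_ts, map_Rr0, map_Rr1, map_w0, map_w1, map_w0, map_w1]
    split_ifs <;> simp
  · simp only [par]
    rw [map_q]
    split_ifs with h
    · rw [map_neg, map_sum]
      congr 1
      refine Finset.sum_congr rfl fun i _ => ?_
      rw [map_q]
      split_ifs <;> simp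
    · simp

end

end Ty

/-- combinatorial types of the pairs of lines -/
structure Tp (n : ℕ) where
  i1 : Fin n
  i2 : Fin n
  kx : Fin n → Bool
  ky : Fin n → Bool
  c : Fin 3

theorem tp_finite (n : ℕ) : Finite (Tp n) := by
  let f : Tp n → (Fin n × Fin n) × (Fin n → Bool) × (Fin n → Bool) × Fin 3 := fun θ => ((θ.i1, θ.i2), θ.kx, θ.ky, θ.c)
  apply Finite.of_injective f
  rintro ⟨_, _, _, _, _⟩ ⟨_, _, _, _, _⟩ h
  simp only [f, Prod.mk.injEq] at h
  obtain ⟨⟨h1, h2⟩, h3, h4, h5⟩ := h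
  subst h1 h2 h3 h4 h5
  rfl

namespace Tp

section
variable {n : ℕ} (θ : Tp n) {R : Type} [CommRing R] (t : Ix n → R)

def xv (j : Fin n) : R := if j = θ.i1 then 1 else if θ.kx j then t (Sum.inl (j, some θ.i2)) else 0

def yv (j : Fin n) : R := if θ.ky j then t (Sum.inl (j, some θ.i1)) else 0

def sp : R := t (Sum.inl (θ.i1, some θ.i2))

def xp : R := if θ.c = 0 then 0 else θ.sp t

def yp : R := if θ.c = 1 then 0 else θ.sp t

/-- the unused slot -/
def i0 : Ix n := if θ.c = 1 then Sum.inr θ.i2 else Sum.inr θ.i1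

def par : Ix n → R
  | Sum.inl (l, none) => if θ.kx l then θ.yv t θ.i2 * t (Sum.inl (l, none)) else t (Sum.inl (l, none))
  | Sum.inl (l, some j) =>
      if θ.kx l then
        if j = θ.i2 then -(t (Sum.inl (l, none)) * θ.yp t +
          ∑ i, if i = θ.i2 then 0 else t (Sum.inl (l, some i)) * θ.yv t i)
        else θ.yv t θ.i2 * t (Sum.inl (l, some j))
      else if θ.ky l then
        if j = θ.i1 then -(t (Sum.inl (l, none)) * θ.xp t +
          ∑ i, if i = θ.i1 then 0 else t (Sum.inl (l, some i)) * θ.xv t i)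
        else t (Sum.inl (l, some j))
      else t (Sum.inl (l, some j))
  | Sum.inr j =>
      if θ.c = 1 then
        if j = θ.i2 then -∑ i, if i = θ.i2 then 0 else t (Sum.inr i) * θ.yv t i
        else θ.yv t θ.i2 * t (Sum.inr j)
      else if θ.c = 0 then
        if j = θ.i1 then -∑ i, if i = θ.i1 then 0 else t (Sum.inr i) * θ.xv t i
        else t (Sum.inr j)
      else
        if j = θ.i1 then -∑ i, if i = θ.i1 then 0 else t (Sum.inr i) * (θ.xv t i - θ.yv t i)
        else t (Sum.inr j)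

variable {R' : Type} [CommRing R'] (φ : R →+* R')

theorem map_xv (l : Fin n) : θ.xv (fun i => φ (t i)) l = φ (θ.xv t l) := by
  unfold xv
  split_ifs <;> simp

theorem map_yv (l : Fin n) : θ.yv (fun i => φ (t i)) l = φ (θ.yv t l) := by
  unfold yv
  split_ifs <;> simp

theorem map_xp : θ.xp (fun i => φ (t i)) = φ (θ.xp t) := by
  unfold xp sp
  split_ifs <;> simp

theorem map_yp : θ.yp (fun i => φ (t i)) = φ (θ.yp t) := by
  unfold yp sp
  split_ifs <;> simp

theorem map_sum1 (r : Fin n) (g h : Fin n → R) :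
    (∑ i, if i = r then (0 : R') else φ (g i) * φ (h i)) = φ (∑ i, if i = r then 0 else g i * h i) := by
  rw [map_sum]
  refine Finset.sum_congr rfl fun i _ => ?_
  split_ifs <;> simp

theorem map_par (i : Ix n) : θ.par (fun i => φ (t i)) i = φ (θ.par t i) := by
  rcases i with ⟨l, _ | j⟩ | j
  · simp only [par, map_yv]
    split_ifs <;> simp
  · simp only [par, map_yv, map_xv, map_yp, map_xp]
    rw [map_sum1 φ θ.i2 (fun i => t (Sum.inl (l, some i))) (fun i => θ.yv t i),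
      map_sum1 φ θ.i1 (fun i => t (Sum.inl (l, some i))) (fun i => θ.xv t i)]
    split_ifs <;> simp
  · simp only [par, map_yv, map_xv]
    have h3 : (∑ i, if i = θ.i1 then (0 : R') else φ (t (Sum.inr i)) * (φ (θ.xv t i) - φ (θ.yv t i))) =
        φ (∑ i, if i = θ.i1 then 0 else t (Sum.inr i) * (θ.xv t i - θ.yv t i)) := by
      rw [← map_sum1 φ θ.i1 (fun i => t (Sum.inr i)) (fun i => θ.xv t i - θ.yv t i)]
      refine Finset.sum_congr rfl fun i _ => ?_
      rw [map_sub]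
    rw [map_sum1 φ θ.i2 (fun i => t (Sum.inr i)) (fun i => θ.yv t i),
      map_sum1 φ θ.i1 (fun i => t (Sum.inr i)) (fun i => θ.xv t i), h3]
    split_ifs <;> simp

end

end Tp

end Pool.Agent.J6H36.FM
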