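import Pool.Agent.Q202.QT.NtMap
import Pool.Agent.J6H36.FM.Par

/-!
# Normal forms of the matrices and the equations in coordinates
-/

set_option autoImplicit false

namespace Pool.Agent.J6H36.FM

open Matrix Pool.Agent.Q202.QT Pool.Agent.TH831.OT

section
variable {K : Type} [Field K] {n : ℕ}

/-- `2 T` is `s` times the standard nilpotent matrix with kernel `(w0, w1)` -/
def Shape (T : M2 K) (s w0 w1 : K) : Prop :=
  2 * T 0 0 = -(s * w0 * w1) ∧ 2 * T 0 1 = s * w0 ^ 2 ∧ 2 * T 1 0 = -(s * w1 ^ 2) ∧ 2 * T 1 1 = s * w0 * w1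

theorem shape_zero (s : K) : Shape (0 : M2 K) s 0 0 := by
  unfold Shape
  simp

theorem tr_zero {T : M2 K} (h : T * T = 0) : T 0 0 + T 1 1 = 0 := by
  have := trace_zero_of_sq h
  rwa [Matrix.trace_fin_two] at this

theorem sq_entry {T : M2 K} (h : T * T = 0) : T 0 0 * T 0 0 + T 0 1 * T 1 0 = 0 := by
  have := congrFun (congrFun h 0) 0
  rwa [Matrix.mul_apply, Fin.sum_univ_two, Matrix.zero_apply] at this

theorem shape_exists (two : (2 : K) ≠ 0) (T : M2 K) (h : T * T = 0) :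
    T = 0 ∨ (∃ s y : K, s ≠ 0 ∧ Shape T s 1 y) ∨ (∃ s y : K, s ≠ 0 ∧ Shape T s y 1) := by
  have h1 := tr_zero h
  have h2 := sq_entry h
  by_cases hq : T 0 1 = 0
  · have h3 : T 0 0 = 0 := by
      rw [hq, zero_mul, add_zero] at h2
      exact mul_self_eq_zero.1 h2
    have h4 : T 1 1 = 0 := by rwa [h3, zero_add] at h1
    by_cases hr : T 1 0 = 0
    · left
      ext i j
      fin_cases i <;> fin_cases j
      · exact h3
      · exact hq
      · exact hr
      · exact h4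
    · right; right
      refine ⟨-(2 * T 1 0), 0, neg_ne_zero.2 (mul_ne_zero two hr), ?_, ?_, ?_, ?_⟩
      · rw [h3]; ring
      · rw [hq]; ring
      · ring
      · rw [h4]; ring
  · right; left
    refine ⟨2 * T 0 1, -(T 0 0 / T 0 1), mul_ne_zero two hq, ?_, ?_, ?_, ?_⟩
    · field_simp
    · ring
    · have h3 : T 1 0 = -(T 0 0 * T 0 0) / T 0 1 := by
        rw [eq_div_iff hq]
        linear_combination h2
      rw [h3]
      field_simp
    · have h3 : T 1 1 = -T 0 0 := by linear_combination h1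
      rw [h3]
      field_simp

theorem shape_i1 (two : (2 : K) ≠ 0) {T : M2 K} (h : T * T = 0) (h0 : T ≠ 0) (hk : T *ᵥ ![1, 0] = 0) :
    ∃ s : K, s ≠ 0 ∧ Shape T s 1 0 := by
  have h1 := tr_zero h
  have e0 : T 0 0 = 0 := by
    have := congrFun hk 0
    simpa [Matrix.mulVec, dotProduct, Fin.sum_univ_two] using this
  have e1 : T 1 0 = 0 := by
    have := congrFun hk 1
    simpa [Matrix.mulVec, dotProduct, Fin.sum_univ_two] using this
  have e2 : T 1 1 = 0 := by rwa [e0, zero_add] at h1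
  have e3 : T 0 1 ≠ 0 := by
    intro hq
    apply h0
    ext i j
    fin_cases i <;> fin_cases j
    · exact e0
    · exact hq
    · exact e1
    · exact e2
  refine ⟨2 * T 0 1, mul_ne_zero two e3, ?_, ?_, ?_, ?_⟩
  · rw [e0]; ring
  · ring
  · rw [e1]; ring
  · rw [e2]; ring

theorem shape_i2 (two : (2 : K) ≠ 0) {T : M2 K} (h : T * T = 0) (h0 : T ≠ 0) (hk : T *ᵥ ![0, 1] = 0) :
    ∃ s : K, s ≠ 0 ∧ Shape T s 0 1 := by
  have h1 := tr_zero h
  have e0 : T 0 1 = 0 := by
    have := congrFun hk 0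
    simpa [Matrix.mulVec, dotProduct, Fin.sum_univ_two] using this
  have e1 : T 1 1 = 0 := by
    have := congrFun hk 1
    simpa [Matrix.mulVec, dotProduct, Fin.sum_univ_two] using this
  have e2 : T 0 0 = 0 := by rwa [e1, add_zero] at h1
  have e3 : T 1 0 ≠ 0 := by
    intro hq
    apply h0
    ext i j
    fin_cases i <;> fin_cases j
    · exact e2
    · exact e0
    · exact hq
    · exact e1
  refine ⟨-(2 * T 1 0), neg_ne_zero.2 (mul_ne_zero two e3), ?_, ?_, ?_, ?_⟩
  · rw [e2]; ring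
  · rw [e0]; ring
  · ring
  · rw [e1]; ring

theorem shape_i3 (two : (2 : K) ≠ 0) {T : M2 K} (h : T * T = 0) (h0 : T ≠ 0) (hk : T *ᵥ ![1, 1] = 0) :
    ∃ s : K, s ≠ 0 ∧ Shape T s 1 1 := by
  have h1 := tr_zero h
  have e0 : T 0 0 + T 0 1 = 0 := by
    have := congrFun hk 0
    simpa [Matrix.mulVec, dotProduct, Fin.sum_univ_two] using this
  have e1 : T 1 0 + T 1 1 = 0 := by
    have := congrFun hk 1
    simpa [Matrix.mulVec, dotProduct, Fin.sum_univ_two] using this
  have e3 : T 0 1 ≠ 0 := by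
    intro hq
    apply h0
    have a0 : T 0 0 = 0 := by rwa [hq, add_zero] at e0
    have a1 : T 1 1 = 0 := by rwa [a0, zero_add] at h1
    have a2 : T 1 0 = 0 := by rwa [a1, add_zero] at e1
    ext i j
    fin_cases i <;> fin_cases j
    · exact a0
    · exact hq
    · exact a2
    · exact a1
  refine ⟨2 * T 0 1, mul_ne_zero two e3, ?_, ?_, ?_, ?_⟩
  · linear_combination 2 * e0
  · ring
  · linear_combination 2 * e1 - 2 * h1 + 2 * e0
  · linear_combination 2 * h1 - 2 * e0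

/-- the equation of a row -/
theorem row_of_rel {u : Fin n → K} {L : Fin n → Fin n → K} {ε : K} {C : M2 K} {T : Fin n → M2 K}
    {s w0 w1 : Fin n → K} (hS : ∀ l, Shape (T l) (s l) (w0 l) (w1 l)) (hsq : ∀ l, T l * T l = 0) (hC : C.trace = 0) {l : Fin n}
    (hs : s l ≠ 0) (hw : w0 l = 1 ∨ w1 l = 1) (h : Rel u L ε C T l) :
    u l * (2 * C 0 0 * w0 l + 2 * C 0 1 * w1 l - ε * w0 l) +
      ∑ j, L l j * (s j * (w0 j * w1 l - w1 j * w0 l) * w0 j) = 0 ∧
    u l * (2 * C 1 0 * w0 l + 2 * C 1 1 * w1 l - ε * w1 l) +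
      ∑ j, L l j * (s j * (w0 j * w1 l - w1 j * w0 l) * w1 j) = 0 := by
  unfold Pool.Agent.Q202.QT.Rel at h
  set M : M2 K := u l • C + ∑ j, L l j • T j with hM
  have hMe : ∀ i k, M i k = u l * C i k + ∑ j, L l j * T j i k := by
    intro i k
    rw [hM, Matrix.add_apply, Matrix.smul_apply, Matrix.sum_apply, smul_eq_mul]
    congr 1
  have hCt : C 0 0 + C 1 1 = 0 := by rwa [Matrix.trace_fin_two] at hC
  have hMt : M 0 0 + M 1 1 = 0 := by
    rw [hMe, hMe]
    have h1 : ∑ j, L l j * T j 0 0 + ∑ j, L l j * T j 1 1 = 0 := by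
      rw [← Finset.sum_add_distrib]
      refine Finset.sum_eq_zero fun j _ => ?_
      rw [← mul_add, tr_zero (hsq j), mul_zero]
    linear_combination u l * hCt + h1
  obtain ⟨s00, s01, s10, s11⟩ := hS l
  have hex : ∀ i k, 2 * (M i 0 * T l 0 k + M i 1 * T l 1 k - (T l i 0 * M 0 k + T l i 1 * M 1 k)) = 2 * (ε * u l * T l i k) := by
    intro i k
    have := congrFun (congrFun h i) k
    rw [Matrix.sub_apply, Matrix.mul_apply, Matrix.mul_apply, Fin.sum_univ_two, Fin.sum_univ_two, Matrix.smul_apply,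
      smul_eq_mul] at this
    rw [this]
  have e01 := hex 0 1
  have e10 := hex 1 0
  have e00 := hex 0 0
  have m11 : M 1 1 = -M 0 0 := by linear_combination hMt
  rw [m11] at e01 e10
  -- the three equations after cancelling `s l`
  have f01 : 2 * w0 l * (M 0 0 * w0 l + M 0 1 * w1 l) = ε * u l * w0 l ^ 2 := by
    apply mul_left_cancel₀ hs
    linear_combination e01 - (M 0 0 - -M 0 0 - ε * u l) * s01 - M 0 1 * s11 + M 0 1 * s00
  have f10 : 2 * w1 l * (M 1 0 * w0 l - M 0 0 * w1 l) = ε * u l * w1 l ^ 2 := by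
    apply mul_left_cancel₀ hs
    linear_combination -e10 + (-M 0 0 - M 0 0 - ε * u l) * s10 + M 1 0 * s00 - M 1 0 * s11
  have f00 : M 0 1 * w1 l ^ 2 + M 1 0 * w0 l ^ 2 = ε * u l * (w0 l * w1 l) := by
    apply mul_left_cancel₀ hs
    linear_combination -e00 - ε * u l * s00 + M 0 1 * s10 - M 1 0 * s01
  have g : 2 * (M 0 0 * w0 l + M 0 1 * w1 l) = ε * u l * w0 l ∧ 2 * (M 1 0 * w0 l + M 1 1 * w1 l) = ε * u l * w1 l := by
    rw [m11]
    rcases hw with hw | hw
    · rw [hw] at f01 f10 f00 ⊢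
      constructor
      · linear_combination f01
      · linear_combination 2 * f00 - w1 l * f01
    · rw [hw] at f01 f10 f00 ⊢
      constructor
      · linear_combination 2 * f00 - w0 l * f10
      · linear_combination f10
  obtain ⟨g0, g1⟩ := g
  rw [hMe, hMe] at g0 g1
  have t0 : ∑ j, L l j * (s j * (w0 j * w1 l - w1 j * w0 l) * w0 j) =
      2 * (∑ j, L l j * T j 0 0) * w0 l + 2 * (∑ j, L l j * T j 0 1) * w1 l := by
    rw [Finset.mul_sum, Finset.mul_sum, Finset.sum_mul, Finset.sum_mul, ← Finset.sum_add_distrib]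
    refine Finset.sum_congr rfl fun j _ => ?_
    obtain ⟨r00, r01, -, -⟩ := hS j
    linear_combination -(L l j * w0 l) * r00 - (L l j * w1 l) * r01
  have t1 : ∑ j, L l j * (s j * (w0 j * w1 l - w1 j * w0 l) * w1 j) =
      2 * (∑ j, L l j * T j 1 0) * w0 l + 2 * (∑ j, L l j * T j 1 1) * w1 l := by
    rw [Finset.mul_sum, Finset.mul_sum, Finset.sum_mul, Finset.sum_mul, ← Finset.sum_add_distrib]
    refine Finset.sum_congr rfl fun j _ => ?_
    obtain ⟨-, -, r10, r11⟩ := hS j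
    linear_combination -(L l j * w0 l) * r10 - (L l j * w1 l) * r11
  rw [t0, t1]
  constructor
  · linear_combination g0
  · linear_combination g1

/-- normal form of the stable line and of `C` -/
theorem vnorm {C : M2 K} (hC : C.trace = 0) {v : Fin 2 → K} (hv0 : v ≠ 0) (hv : wed (C *ᵥ v) v = 0) :
    ∃ (kv : Bool) (V0 V1 U0 U1 : K), (kv = true → V0 = 1) ∧ (kv = false → V0 = 0 ∧ V1 = 1) ∧
      2 * C 0 0 = -(V1 * U0 + V0 * U1) ∧ 2 * C 0 1 = 2 * V0 * U0 ∧ 2 * C 1 0 = -(2 * V1 * U1) ∧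
      2 * C 1 1 = V0 * U1 + V1 * U0 ∧
      ∀ M : M2 K, wed (M *ᵥ v) v = 0 → M 0 0 * V0 * V1 + M 0 1 * V1 ^ 2 - M 1 0 * V0 ^ 2 - M 1 1 * V0 * V1 = 0 := by
  have hCt : C 0 0 + C 1 1 = 0 := by rwa [Matrix.trace_fin_two] at hC
  have hex : ∀ M : M2 K, wed (M *ᵥ v) v = (M 0 0 * v 0 + M 0 1 * v 1) * v 1 - (M 1 0 * v 0 + M 1 1 * v 1) * v 0 := by
    intro M
    unfold wed
    simp only [Matrix.mulVec, dotProduct, Fin.sum_univ_two]
  rw [hex] at hv
  by_cases h : v 0 = 0
  · have h1 : v 1 ≠ 0 := by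
      intro h1
      apply hv0
      funext i
      fin_cases i
      · exact h
      · exact h1
    have c01 : C 0 1 = 0 := by
      rw [h] at hv
      have : C 0 1 * (v 1 * v 1) = 0 := by linear_combination hv
      exact (mul_eq_zero.1 this).resolve_right (mul_ne_zero h1 h1)
    refine ⟨false, 0, 1, -(2 * C 0 0), -(C 1 0), by simp, fun _ => ⟨rfl, rfl⟩, by ring, by rw [c01]; ring, by ring, ?_, ?_⟩
    · linear_combination 2 * hCt
    · intro M hM
      rw [hex, h] at hM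
      have h2 : M 0 1 * (v 1 * v 1) = 0 := by linear_combination hM
      have h3 : M 0 1 = 0 := (mul_eq_zero.1 h2).resolve_right (mul_ne_zero h1 h1)
      rw [h3]
      ring
  · set y := v 1 / v 0 with hy
    have hv1 : v 1 = y * v 0 := by
      rw [hy]
      field_simp
    have hhom : ∀ M : M2 K, wed (M *ᵥ v) v = 0 → M 0 0 * 1 * y + M 0 1 * y ^ 2 - M 1 0 * 1 ^ 2 - M 1 1 * 1 * y = 0 := by
      intro M hM
      rw [hex, hv1] at hM
      have h2 : (M 0 0 * 1 * y + M 0 1 * y ^ 2 - M 1 0 * 1 ^ 2 - M 1 1 * 1 * y) * (v 0 * v 0) = 0 := by linear_combination hM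
      exact (mul_eq_zero.1 h2).resolve_right (mul_ne_zero h h)
    have hC0 := hhom C (by rw [hex]; exact hv)
    refine ⟨true, 1, y, C 0 1, -(2 * C 0 0) - y * C 0 1, fun _ => rfl, by simp, by ring, by ring, ?_, ?_, hhom⟩
    · linear_combination -2 * hC0 - 2 * y * hCt
    · linear_combination 2 * hCt

end

end Pool.Agent.J6H36.FM
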