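import Pool.Agent.J6H36.FM.Shp

/-!
# Linking data with three lines are values of the parametrisation
-/

set_option autoImplicit false

namespace Pool.Agent.J6H36.FM

open Matrix Pool.Agent.Q202.QT Pool.Agent.TH831.OT

section
variable {K : Type} [Field K] {n : ℕ}

theorem sum_split {a b : Fin n} (hab : a ≠ b) (f : Fin n → K) :
    ∑ j, f j = (∑ j, if j = a ∨ j = b then 0 else f j) + f a + f b := by
  classical
  have h1 : ∀ j, f j = (if j = a ∨ j = b then 0 else f j) + (if j = a then f j else 0) + (if j = b then f j else 0) := by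
    intro j
    by_cases h1 : j = a
    · have h2 : j ≠ b := fun h => hab (h1.symm.trans h)
      simp [h1, hab]
    · by_cases h2 : j = b
      · simp [h2, Ne.symm hab]
      · simp [h1, h2]
  calc ∑ j, f j = ∑ j, ((if j = a ∨ j = b then 0 else f j) + (if j = a then f j else 0) + (if j = b then f j else 0)) :=
        Finset.sum_congr rfl fun j _ => h1 j
    _ = _ := by
      rw [Finset.sum_add_distrib, Finset.sum_add_distrib]
      simp

theorem sum_split1 (c : Fin n) (f : Fin n → K) :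
    ∑ j, f j = (∑ j, if j = c then 0 else f j) + f c := by
  classical
  have h1 : ∀ j, f j = (if j = c then 0 else f j) + (if j = c then f j else 0) := by
    intro j
    by_cases h1 : j = c
    · simp [h1]
    · simp [h1]
  calc ∑ j, f j = ∑ j, ((if j = c then 0 else f j) + (if j = c then f j else 0)) :=
        Finset.sum_congr rfl fun j _ => h1 j
    _ = _ := by
      rw [Finset.sum_add_distrib]
      simp

theorem h_div (D u B S : K) (h : D ≠ 0) : D * (u / D * B + D⁻¹ * S) = u * B + S := by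
  field_simp

theorem h_neg (q S : K) (h : q ≠ 0) : q * -(q⁻¹ * S) = -S := by
  field_simp

/-- linking data which admit three lines are values of the parametrisation -/
theorem w3_par (two : (2 : K) ≠ 0) {u : Fin n → K} {L : Fin n → Fin n → K} {bb : Fin n → K} {ε : K} (hε : ε = 0 ∨ ε = 1)
    (h : W3 u L bb ε) : ∃ (θ : Ty n) (t : Ix n → K), t (Sum.inr θ.c) = 0 ∧ θ.par t = dv u L bb := by
  classical
  obtain ⟨i1, i2, i3, C, T, v, h12, h13, h23, hC, hsq, T1, k1, T2, k2, T3, k3, hrel, hv0, hv1, hv2⟩ := h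
  have hch : ∀ l, ∃ (z k : Bool) (s y w0 w1 : K), Shape (T l) s w0 w1 ∧ (z = true → w0 = 0 ∧ w1 = 0 ∧ s = L l l) ∧
      (z = false → s ≠ 0 ∧ (w0 = 1 ∨ w1 = 1)) ∧ (l = i1 → z = false ∧ w0 = 1 ∧ w1 = 0) ∧
      (l = i2 → z = false ∧ w0 = 0 ∧ w1 = 1) ∧ (l = i3 → z = false ∧ w0 = 1 ∧ w1 = 1) ∧
      (z = false → k = true → l ≠ i1 → l ≠ i2 → l ≠ i3 → w0 = 1 ∧ w1 = y) ∧
      (z = false → k = false → l ≠ i1 → l ≠ i2 → l ≠ i3 → w0 = y ∧ w1 = 1) := by
    intro l
    by_cases e1 : l = i1
    · obtain ⟨s, hs, hS⟩ := shape_i1 two (hsq i1) T1 k1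
      subst e1
      refine ⟨false, true, s, 0, 1, 0, hS, by simp, fun _ => ⟨hs, Or.inl rfl⟩, fun _ => ⟨rfl, rfl, rfl⟩, fun h => absurd h h12,
        fun h => absurd h h13, fun _ _ h => absurd rfl h, fun _ _ h => absurd rfl h⟩
    by_cases e2 : l = i2
    · obtain ⟨s, hs, hS⟩ := shape_i2 two (hsq i2) T2 k2
      subst e2
      refine ⟨false, true, s, 0, 0, 1, hS, by simp, fun _ => ⟨hs, Or.inr rfl⟩, fun h => absurd h e1, fun _ => ⟨rfl, rfl, rfl⟩,
        fun h => absurd h h23, fun _ _ _ h => absurd rfl h, fun _ _ _ h => absurd rfl h⟩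
    by_cases e3 : l = i3
    · obtain ⟨s, hs, hS⟩ := shape_i3 two (hsq i3) T3 k3
      subst e3
      refine ⟨false, true, s, 0, 1, 1, hS, by simp, fun _ => ⟨hs, Or.inr rfl⟩, fun h => absurd h e1, fun h => absurd h e2,
        fun _ => ⟨rfl, rfl, rfl⟩, fun _ _ _ _ h => absurd rfl h, fun _ _ _ _ h => absurd rfl h⟩
    rcases shape_exists two (T l) (hsq l) with h0 | ⟨s, y, hs, hS⟩ | ⟨s, y, hs, hS⟩
    · refine ⟨true, true, L l l, 0, 0, 0, ?_, fun _ => ⟨rfl, rfl, rfl⟩, by simp, fun h => absurd h e1, fun h => absurd h e2,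
        fun h => absurd h e3, by simp, by simp⟩
      rw [h0]
      exact shape_zero _
    · exact ⟨false, true, s, y, 1, y, hS, by simp, fun _ => ⟨hs, Or.inl rfl⟩, fun h => absurd h e1, fun h => absurd h e2,
        fun h => absurd h e3, fun _ _ _ _ _ => ⟨rfl, rfl⟩, by simp⟩
    · exact ⟨false, false, s, y, y, 1, hS, by simp, fun _ => ⟨hs, Or.inr rfl⟩, fun h => absurd h e1, fun h => absurd h e2,
        fun h => absurd h e3, by simp, fun _ _ _ _ _ => ⟨rfl, rfl⟩⟩
  choose z k s y w0 w1 hS hz hnz hi1 hi2 hi3 hkt hkf using hch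
  obtain ⟨z1, a10, a11⟩ := hi1 i1 rfl
  obtain ⟨z2, a20, a21⟩ := hi2 i2 rfl
  obtain ⟨z3, a30, a31⟩ := hi3 i3 rfl
  have hab : ∀ l, ∃ a b : Fin n, (z l = true → a = l) ∧ (z l = false → a ≠ b ∧ z a = false ∧ z b = false ∧
      w0 a * w1 l - w1 a * w0 l ≠ 0 ∧ w0 b * w1 l - w1 b * w0 l ≠ 0 ∧ w0 a * w1 b - w1 a * w0 b ≠ 0) := by
    intro l
    rcases hzl : z l with _ | _
    · obtain ⟨-, hw⟩ := hnz l hzl
      by_cases e1 : w1 l = 0
      · have e0 : w0 l = 1 := by
          rcases hw with h | h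
          · exact h
          · rw [e1] at h
            exact absurd h zero_ne_one
        refine ⟨i2, i3, by simp, fun _ => ⟨h23, z2, z3, ?_, ?_, ?_⟩⟩
        · rw [a20, a21, e0, e1]; simp
        · rw [a30, a31, e0, e1]; simp
        · rw [a20, a21, a30, a31]; simp
      · by_cases e0 : w0 l = 0
        · refine ⟨i1, i3, by simp, fun _ => ⟨h13, z1, z3, ?_, ?_, ?_⟩⟩
          · rw [a10, a11, e0]; simpa using e1
          · rw [a30, a31, e0]; simpa using e1
          · rw [a10, a11, a30, a31]; simp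
        · refine ⟨i1, i2, by simp, fun _ => ⟨h12, z1, z2, ?_, ?_, ?_⟩⟩
          · rw [a10, a11]; simpa using e1
          · rw [a20, a21]; simpa using e0
          · rw [a10, a11, a20, a21]; simp
    · exact ⟨l, l, fun _ => rfl, by simp⟩
  choose a b haz hab using hab
  obtain ⟨kv, V0, V1, U0, U1, hkv1, hkv0, c00, c01, c10, c11, hhom⟩ := vnorm hC hv0 hv1
  have hbq : ∑ j, bb j * (s j * (w0 j * V1 - w1 j * V0) ^ 2) = 0 := by
    have h1 := hhom _ hv2
    simp only [Matrix.sum_apply, Matrix.smul_apply, smul_eq_mul] at h1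
    have h2 : ∑ j, bb j * (s j * (w0 j * V1 - w1 j * V0) ^ 2) =
        2 * ((∑ j, bb j * T j 0 0) * V0 * V1 + (∑ j, bb j * T j 0 1) * V1 ^ 2 - (∑ j, bb j * T j 1 0) * V0 ^ 2 -
          (∑ j, bb j * T j 1 1) * V0 * V1) := by
      simp only [Finset.sum_mul]
      rw [← Finset.sum_add_distrib, ← Finset.sum_sub_distrib, ← Finset.sum_sub_distrib, Finset.mul_sum]
      refine Finset.sum_congr rfl fun j _ => ?_
      obtain ⟨r00, r01, r10, r11⟩ := hS j
      linear_combination -(bb j * V0 * V1) * r00 - (bb j * V1 ^ 2) * r01 + (bb j * V0 ^ 2) * r10 + (bb j * V0 * V1) * r11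
    rw [h2, h1, mul_zero]
  have hc : ∃ c, z c = false ∧ w0 c * V1 - w1 c * V0 ≠ 0 := by
    by_cases e : V1 = 0
    · have e0 : V0 = 1 := by
        rcases hkv : kv with _ | _
        · rw [(hkv0 hkv).2] at e
          exact absurd e one_ne_zero
        · exact hkv1 hkv
      refine ⟨i2, z2, ?_⟩
      rw [a20, a21, e0, e]
      simp
    · refine ⟨i1, z1, ?_⟩
      rw [a10, a11]
      simpa using e
  obtain ⟨c, zc, hqc⟩ := hc
  -- the parameters
  set y' : Fin n → K := fun l => if l = i1 then U0 else if l = i2 then U1 else if l = i3 then V1 else y l with hy'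
  set Δ : Fin n → K := fun l => s (a l) * s (b l) * (w0 (a l) * w1 l - w1 (a l) * w0 l) *
    (w0 (b l) * w1 l - w1 (b l) * w0 l) * (w0 (a l) * w1 (b l) - w1 (a l) * w0 (b l)) with hΔ
  have hΔ0 : ∀ l, z l = false → Δ l ≠ 0 := by
    intro l hl
    obtain ⟨-, za, zb, n1, n2, n3⟩ := hab l hl
    exact mul_ne_zero (mul_ne_zero (mul_ne_zero (mul_ne_zero (hnz _ za).1 (hnz _ zb).1) n1) n2) n3
  set q : Fin n → K := fun j => s j * (w0 j * V1 - w1 j * V0) ^ 2 with hq
  have hq0 : q c ≠ 0 := mul_ne_zero (hnz c zc).1 (pow_ne_zero 2 hqc)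
  let θ : Ty n := ⟨i1, i2, i3, z, k, a, b, kv, c, decide (ε = 1)⟩
  let t : Ix n → K := fun i => match i with
    | Sum.inl (l, none) => if z l then u l else u l / Δ l
    | Sum.inl (l, some j) => if z l then L l j else if j = a l then s l else if j = b l then y' l else L l j / Δ l
    | Sum.inr j => if j = c then 0 else bb j / q c
  have tn : ∀ l, t (Sum.inl (l, none)) = if z l then u l else u l / Δ l := fun _ => rfl
  have ts' : ∀ l j, t (Sum.inl (l, some j)) = if z l then L l j else if j = a l then s l else if j = b l then y' l else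
      L l j / Δ l := fun _ _ => rfl
  have tr : ∀ j, t (Sum.inr j) = if j = c then 0 else bb j / q c := fun _ => rfl
  have tb : ∀ l, z l = false → t (Sum.inl (l, some (b l))) = y' l := by
    intro l hl
    rw [ts', hl, if_neg (by simp), if_neg (Ne.symm (hab l hl).1), if_pos rfl]
  have fts : ∀ l, θ.ts t l = s l := by
    intro l
    show t (Sum.inl (l, some (a l))) = s l
    rw [ts']
    rcases hzl : z l with _ | _
    · rw [if_neg (by simp), if_pos rfl]
    · rw [if_pos rfl, (hz l hzl).2.2, haz l hzl]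
  have fw : ∀ l, θ.w0 t l = w0 l ∧ θ.w1 t l = w1 l := by
    intro l
    unfold Ty.w0 Ty.w1
    show (if z l then (0 : K) else if l = i1 then 1 else if l = i2 then 0 else if l = i3 then 1 else
      if k l then 1 else t (Sum.inl (l, some (b l)))) = w0 l ∧ (if z l then (0 : K) else if l = i1 then 0 else if l = i2 then 1 else
      if l = i3 then 1 else if k l then t (Sum.inl (l, some (b l))) else 1) = w1 l
    rcases hzl : z l with _ | _
    · simp only [Bool.false_eq_true, if_false]
      by_cases e1 : l = i1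
      · rw [if_pos e1, if_pos e1]
        exact ⟨(hi1 l e1).2.1.symm, (hi1 l e1).2.2.symm⟩
      rw [if_neg e1, if_neg e1]
      by_cases e2 : l = i2
      · rw [if_pos e2, if_pos e2]
        exact ⟨(hi2 l e2).2.1.symm, (hi2 l e2).2.2.symm⟩
      rw [if_neg e2, if_neg e2]
      by_cases e3 : l = i3
      · rw [if_pos e3, if_pos e3]
        exact ⟨(hi3 l e3).2.1.symm, (hi3 l e3).2.2.symm⟩
      rw [if_neg e3, if_neg e3, tb l hzl]
      have hyl : y' l = y l := by
        show (if l = i1 then U0 else if l = i2 then U1 else if l = i3 then V1 else y l) = y l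
        rw [if_neg e1, if_neg e2, if_neg e3]
      rw [hyl]
      rcases hkl : k l with _ | _
      · obtain ⟨r0, r1⟩ := hkf l hzl hkl e1 e2 e3
        rw [if_neg (by simp), if_neg (by simp)]
        exact ⟨r0.symm, r1.symm⟩
      · obtain ⟨r0, r1⟩ := hkt l hzl hkl e1 e2 e3
        rw [if_pos rfl, if_pos rfl]
        exact ⟨r0.symm, r1.symm⟩
    · rw [if_pos rfl, if_pos rfl]
      exact ⟨(hz l hzl).1.symm, (hz l hzl).2.1.symm⟩
  have fU0 : θ.U0 t = U0 := by
    show t (Sum.inl (i1, some (b i1))) = U0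
    rw [tb i1 z1]
    show (if i1 = i1 then U0 else _) = U0
    rw [if_pos rfl]
  have fU1 : θ.U1 t = U1 := by
    show t (Sum.inl (i2, some (b i2))) = U1
    rw [tb i2 z2]
    show (if i2 = i1 then U0 else if i2 = i2 then U1 else _) = U1
    rw [if_neg (Ne.symm h12), if_pos rfl]
  have fv0 : θ.v0 (R := K) = V0 := by
    show (if kv then (1 : K) else 0) = V0
    rcases hkv : kv with _ | _
    · rw [if_neg (by simp), (hkv0 hkv).1]
    · rw [if_pos rfl, hkv1 hkv]
  have fv1 : θ.v1 t = V1 := by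
    show (if kv then t (Sum.inl (i3, some (b i3))) else 1) = V1
    rcases hkv : kv with _ | _
    · rw [if_neg (by simp), (hkv0 hkv).2]
    · rw [if_pos rfl, tb i3 z3]
      show (if i3 = i1 then U0 else if i3 = i2 then U1 else if i3 = i3 then V1 else _) = V1
      rw [if_neg (Ne.symm h13), if_neg (Ne.symm h23), if_pos rfl]
  have fep : θ.ep (R := K) = ε := by
    show (if decide (ε = 1) then (1 : K) else 0) = ε
    rcases hε with h | h
    · rw [h]
      simp
    · rw [h]
      simp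
  have fW : ∀ i j, θ.W t i j = w0 i * w1 j - w1 i * w0 j := by
    intro i j
    unfold Ty.W
    rw [(fw i).1, (fw i).2, (fw j).1, (fw j).2]
  have fD : ∀ l, θ.Dl t l = Δ l := by
    intro l
    unfold Ty.Dl
    show θ.ts t (a l) * θ.ts t (b l) * θ.W t (a l) l * θ.W t (b l) l * θ.W t (a l) (b l) = Δ l
    rw [fts, fts, fW, fW, fW]
  have fq : ∀ j, θ.q t j = q j := by
    intro j
    unfold Ty.q
    rw [fts, (fw j).1, (fw j).2, fv0, fv1]
  have fB0 : ∀ l, θ.Bw0 t l = 2 * C 0 0 * w0 l + 2 * C 0 1 * w1 l - ε * w0 l := by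
    intro l
    unfold Ty.Bw0
    rw [fU0, fU1, fv0, fv1, fep, (fw l).1, (fw l).2, c00, c01]
  have fB1 : ∀ l, θ.Bw1 t l = 2 * C 1 0 * w0 l + 2 * C 1 1 * w1 l - ε * w1 l := by
    intro l
    unfold Ty.Bw1
    rw [fU0, fU1, fv0, fv1, fep, (fw l).1, (fw l).2, c10, c11]
  have fR : ∀ l, z l = false → ∀ (w : Fin n → K) (B : K) (X : K),
      u l * B + ∑ j, L l j * (s j * (w0 j * w1 l - w1 j * w0 l) * w j) = 0 →
      X = t (Sum.inl (l, none)) * B + (∑ j, if j = a l ∨ j = b l then 0 else
        t (Sum.inl (l, some j)) * (s j * (w0 j * w1 l - w1 j * w0 l) * w j)) →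
      Δ l * X = -(L l (a l) * (s (a l) * (w0 (a l) * w1 l - w1 (a l) * w0 l) * w (a l)) +
        L l (b l) * (s (b l) * (w0 (b l) * w1 l - w1 (b l) * w0 l) * w (b l))) := by
    intro l hl w B X hE hX
    rw [hX, tn, hl, if_neg (by simp)]
    have e1 : (∑ j, if j = a l ∨ j = b l then 0 else t (Sum.inl (l, some j)) * (s j * (w0 j * w1 l - w1 j * w0 l) * w j)) =
        (Δ l)⁻¹ * ∑ j, if j = a l ∨ j = b l then 0 else L l j * (s j * (w0 j * w1 l - w1 j * w0 l) * w j) := by
      rw [Finset.mul_sum]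
      refine Finset.sum_congr rfl fun j _ => ?_
      by_cases hj : j = a l ∨ j = b l
      · rw [if_pos hj, if_pos hj, mul_zero]
      · rw [if_neg hj, if_neg hj, ts', hl, if_neg (by simp), if_neg fun h => hj (Or.inl h), if_neg fun h => hj (Or.inr h)]
        rw [div_eq_inv_mul]
        ring
    rw [e1]
    rw [sum_split (hab l hl).1] at hE
    have h0 := hΔ0 l hl
    have e2 : Δ l * (u l / Δ l * B + (Δ l)⁻¹ * ∑ j, if j = a l ∨ j = b l then 0 else
        L l j * (s j * (w0 j * w1 l - w1 j * w0 l) * w j)) = u l * B + ∑ j, if j = a l ∨ j = b l then 0 else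
        L l j * (s j * (w0 j * w1 l - w1 j * w0 l) * w j) := h_div _ _ _ _ h0
    rw [e2]
    linear_combination hE
  refine ⟨θ, t, ?_, ?_⟩
  · show t (Sum.inr c) = 0
    rw [tr, if_pos rfl]
  funext i
  rcases i with ⟨l, _ | j⟩ | j
  · show (if z l then t (Sum.inl (l, none)) else θ.Dl t l * t (Sum.inl (l, none))) = u l
    rcases hzl : z l with _ | _
    · rw [if_neg (by simp), fD, tn, hzl, if_neg (by simp), mul_div_cancel₀ _ (hΔ0 l hzl)]
    · rw [if_pos rfl, tn, hzl, if_pos rfl]
  · show (if z l then t (Sum.inl (l, some j)) else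
      if j = a l then -(θ.ts t (b l) * θ.W t (b l) l * (θ.Rr0 t l * θ.w1 t (b l) - θ.Rr1 t l * θ.w0 t (b l))) else
      if j = b l then -(θ.ts t (a l) * θ.W t (a l) l * (θ.w0 t (a l) * θ.Rr1 t l - θ.w1 t (a l) * θ.Rr0 t l)) else
      θ.Dl t l * t (Sum.inl (l, some j))) = L l j
    rcases hzl : z l with _ | _
    · rw [if_neg (by simp)]
      have h0 := hΔ0 l hzl
      obtain ⟨E0, E1⟩ := row_of_rel hS hsq hC (hnz l hzl).1 (hnz l hzl).2 (hrel l)
      have R0 := fR l hzl w0 _ (θ.Rr0 t l) E0 (by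
        unfold Ty.Rr0
        rw [fB0]
        congr 1
        refine Finset.sum_congr rfl fun j _ => ?_
        rw [fts, fW, (fw j).1])
      have R1 := fR l hzl w1 _ (θ.Rr1 t l) E1 (by
        unfold Ty.Rr1
        rw [fB1]
        congr 1
        refine Finset.sum_congr rfl fun j _ => ?_
        rw [fts, fW, (fw j).2])
      by_cases ja : j = a l
      · rw [if_pos ja, fts, fW, (fw _).1, (fw _).2, ja]
        apply mul_left_cancel₀ h0
        have : Δ l = s (a l) * s (b l) * (w0 (a l) * w1 l - w1 (a l) * w0 l) *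
          (w0 (b l) * w1 l - w1 (b l) * w0 l) * (w0 (a l) * w1 (b l) - w1 (a l) * w0 (b l)) := rfl
        calc Δ l * -(s (b l) * (w0 (b l) * w1 l - w1 (b l) * w0 l) * (θ.Rr0 t l * w1 (b l) - θ.Rr1 t l * w0 (b l))) =
            -(s (b l) * (w0 (b l) * w1 l - w1 (b l) * w0 l) * ((Δ l * θ.Rr0 t l) * w1 (b l) - (Δ l * θ.Rr1 t l) * w0 (b l))) := by
              ring
          _ = Δ l * L l (a l) := by
              rw [R0, R1, this]
              ring
      · rw [if_neg ja]
        by_cases jb : j = b l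
        · rw [if_pos jb, fts, fW, (fw _).1, (fw _).2, jb]
          apply mul_left_cancel₀ h0
          have : Δ l = s (a l) * s (b l) * (w0 (a l) * w1 l - w1 (a l) * w0 l) *
            (w0 (b l) * w1 l - w1 (b l) * w0 l) * (w0 (a l) * w1 (b l) - w1 (a l) * w0 (b l)) := rfl
          calc Δ l * -(s (a l) * (w0 (a l) * w1 l - w1 (a l) * w0 l) * (w0 (a l) * θ.Rr1 t l - w1 (a l) * θ.Rr0 t l)) =
              -(s (a l) * (w0 (a l) * w1 l - w1 (a l) * w0 l) * (w0 (a l) * (Δ l * θ.Rr1 t l) - w1 (a l) * (Δ l * θ.Rr0 t l))) := by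
                ring
            _ = Δ l * L l (b l) := by
                rw [R0, R1, this]
                ring
        · rw [if_neg jb, fD, ts', hzl, if_neg (by simp), if_neg ja, if_neg jb, mul_div_cancel₀ _ h0]
    · rw [if_pos rfl, ts', hzl, if_pos rfl]
  · show (if j = c then -∑ i, (if i = c then 0 else θ.q t i * t (Sum.inr i)) else θ.q t c * t (Sum.inr j)) = bb j
    by_cases hj : j = c
    · rw [if_pos hj, hj]
      rw [sum_split1 c] at hbq
      have e1 : (∑ i, if i = c then 0 else θ.q t i * t (Sum.inr i)) = (q c)⁻¹ * ∑ i, if i = c then 0 else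
          bb i * (s i * (w0 i * V1 - w1 i * V0) ^ 2) := by
        rw [Finset.mul_sum]
        refine Finset.sum_congr rfl fun i _ => ?_
        by_cases hi : i = c
        · rw [if_pos hi, if_pos hi, mul_zero]
        · rw [if_neg hi, if_neg hi, fq, tr, if_neg hi, div_eq_inv_mul]
          show q i * ((q c)⁻¹ * bb i) = (q c)⁻¹ * (bb i * q i)
          ring
      rw [e1]
      apply mul_left_cancel₀ hq0
      have e2 : bb c * q c = bb c * (s c * (w0 c * V1 - w1 c * V0) ^ 2) := rfl
      have e3 : q c * -((q c)⁻¹ * ∑ i, if i = c then 0 else bb i * (s i * (w0 i * V1 - w1 i * V0) ^ 2)) =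
          -∑ i, if i = c then 0 else bb i * (s i * (w0 i * V1 - w1 i * V0) ^ 2) := h_neg _ _ hq0
      rw [e3]
      linear_combination -hbq - e2
    · rw [if_neg hj, fq, tr, if_neg hj, mul_div_cancel₀ _ hq0]

end

end Pool.Agent.J6H36.FM
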