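import Pool.Agent.J6H36.FM.WtA

/-!
# Linking data with two lines are values of the parametrisation
-/

set_option autoImplicit false

namespace Pool.Agent.J6H36.FM

open Matrix Pool.Agent.Q202.QT Pool.Agent.TH831.OT

section
variable {K : Type} [Field K] {n : ℕ}

theorem pw_core {u : Fin n → K} {L : Fin n → Fin n → K} {b : Fin n → K} {i1 i2 : Fin n} {xp yp : K} {x y : Fin n → K}
    (hx1 : x i1 = 1) (hy2 : y i2 ≠ 0) (hxy : ∀ l, x l = 0 ∨ y l = 0)
    (h1 : ∀ l, x l ≠ 0 → u l * yp + ∑ j, L l j * y j = 0) (h2 : ∀ l, y l ≠ 0 → u l * xp + ∑ j, L l j * x j = 0)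
    (c : Fin 3) (sp : K) (hxp : xp = if c = 0 then 0 else sp) (hyp : yp = if c = 1 then 0 else sp)
    (hb : (c = 0 ∧ ∑ j, b j * x j = 0) ∨ (c = 1 ∧ ∑ j, b j * y j = 0) ∨ (c = 2 ∧ ∑ j, b j * (x j - y j) = 0)) :
    ∃ (θ : Tp n) (t : Ix n → K), t θ.i0 = 0 ∧ θ.par t = dv u L b := by
  classical
  let kx : Fin n → Bool := fun l => decide (x l ≠ 0)
  let ky : Fin n → Bool := fun l => decide (y l ≠ 0)
  have kxt : ∀ l, kx l = true → x l ≠ 0 := fun l h => of_decide_eq_true h
  have kxf : ∀ l, kx l = false → x l = 0 := fun l h => not_not.1 (of_decide_eq_false h)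
  have kyt : ∀ l, ky l = true → y l ≠ 0 := fun l h => of_decide_eq_true h
  have kyf : ∀ l, ky l = false → y l = 0 := fun l h => not_not.1 (of_decide_eq_false h)
  have hx10 : x i1 ≠ 0 := by
    rw [hx1]
    exact one_ne_zero
  have kx1 : kx i1 = true := decide_eq_true hx10
  have ky2 : ky i2 = true := decide_eq_true hy2
  have hy1 : y i1 = 0 := (hxy i1).resolve_left hx10
  have kxy : ∀ l, ky l = true → kx l = false := by
    intro l hl
    rcases h : kx l with _ | _
    · rfl
    · rcases hxy l with h' | h'
      · exact absurd h' (kxt l h)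
      · exact absurd h' (kyt l hl)
  let θ : Tp n := ⟨i1, i2, kx, ky, c⟩
  let t : Ix n → K := fun i => match i with
    | Sum.inl (l, none) => if kx l then u l / y i2 else u l
    | Sum.inl (l, some j) => if kx l then (if j = i2 then (if l = i1 then sp else x l) else L l j / y i2) else
        if ky l then (if j = i1 then y l else L l j) else L l j
    | Sum.inr j => if c = 1 then (if j = i2 then 0 else b j / y i2) else (if j = i1 then 0 else b j)
  have tn : ∀ l, t (Sum.inl (l, none)) = if kx l then u l / y i2 else u l := fun _ => rfl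
  have ts' : ∀ l j, t (Sum.inl (l, some j)) = if kx l then (if j = i2 then (if l = i1 then sp else x l) else L l j / y i2) else
        if ky l then (if j = i1 then y l else L l j) else L l j := fun _ _ => rfl
  have tr : ∀ j, t (Sum.inr j) = if c = 1 then (if j = i2 then 0 else b j / y i2) else (if j = i1 then 0 else b j) :=
    fun _ => rfl
  have fx : ∀ j, θ.xv t j = x j := by
    intro j
    show (if j = i1 then (1 : K) else if kx j then t (Sum.inl (j, some i2)) else 0) = x j
    by_cases e : j = i1
    · rw [if_pos e, e, hx1]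
    · rw [if_neg e]
      rcases h : kx j with _ | _
      · simp only [Bool.false_eq_true, if_false]
        exact (kxf j h).symm
      · rw [if_pos rfl, ts', h, if_pos rfl, if_pos rfl, if_neg e]
  have fy : ∀ j, θ.yv t j = y j := by
    intro j
    show (if ky j then t (Sum.inl (j, some i1)) else 0) = y j
    rcases h : ky j with _ | _
    · simp only [Bool.false_eq_true, if_false]
      exact (kyf j h).symm
    · rw [if_pos rfl, ts', kxy j h, h]
      simp
  have fs : θ.sp t = sp := by
    show t (Sum.inl (i1, some i2)) = sp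
    rw [ts', kx1, if_pos rfl, if_pos rfl, if_pos rfl]
  have fxp : θ.xp t = xp := by
    show (if c = 0 then (0 : K) else θ.sp t) = xp
    rw [fs, hxp]
  have fyp : θ.yp t = yp := by
    show (if c = 1 then (0 : K) else θ.sp t) = yp
    rw [fs, hyp]
  refine ⟨θ, t, ?_, ?_⟩
  · show t (if c = 1 then Sum.inr i2 else Sum.inr i1) = 0
    by_cases hc : c = 1
    · rw [if_pos hc, tr, if_pos hc, if_pos rfl]
    · rw [if_neg hc, tr, if_neg hc, if_pos rfl]
  funext i
  rcases i with ⟨l, _ | j⟩ | j
  · show (if kx l then θ.yv t i2 * t (Sum.inl (l, none)) else t (Sum.inl (l, none))) = u l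
    rcases h : kx l with _ | _
    · simp only [Bool.false_eq_true, if_false]
      rw [tn, h]
      simp
    · rw [if_pos rfl, fy, tn, h, if_pos rfl, mul_div_cancel₀ _ hy2]
  · show (if kx l then
        if j = i2 then -(t (Sum.inl (l, none)) * θ.yp t +
          ∑ i, if i = i2 then 0 else t (Sum.inl (l, some i)) * θ.yv t i)
        else θ.yv t i2 * t (Sum.inl (l, some j))
      else if ky l then
        if j = i1 then -(t (Sum.inl (l, none)) * θ.xp t +
          ∑ i, if i = i1 then 0 else t (Sum.inl (l, some i)) * θ.xv t i)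
        else t (Sum.inl (l, some j))
      else t (Sum.inl (l, some j))) = L l j
    rcases h : kx l with _ | _
    · simp only [Bool.false_eq_true, if_false]
      rcases h' : ky l with _ | _
      · simp only [Bool.false_eq_true, if_false]
        rw [ts', h, h']
        simp
      · rw [if_pos rfl]
        by_cases e : j = i1
        · rw [if_pos e, e, fxp]
          have e2 := h2 l (kyt l h')
          rw [sum_split1 i1, hx1] at e2
          have e1 : (∑ i, if i = i1 then 0 else t (Sum.inl (l, some i)) * θ.xv t i) = ∑ i, if i = i1 then 0 else L l i * x i := by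
            refine Finset.sum_congr rfl fun i _ => ?_
            by_cases hi : i = i1
            · rw [if_pos hi, if_pos hi]
            · rw [if_neg hi, if_neg hi, fx, ts', h, h']
              simp [hi]
          rw [e1, tn, h]
          simp only [Bool.false_eq_true, if_false]
          linear_combination -e2
        · rw [if_neg e, ts', h, h']
          simp [e]
    · rw [if_pos rfl]
      by_cases e : j = i2
      · rw [if_pos e, e, fyp]
        have e2 := h1 l (kxt l h)
        rw [sum_split1 i2] at e2
        have e1 : (∑ i, if i = i2 then 0 else t (Sum.inl (l, some i)) * θ.yv t i) =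
            (y i2)⁻¹ * ∑ i, if i = i2 then 0 else L l i * y i := by
          rw [Finset.mul_sum]
          refine Finset.sum_congr rfl fun i _ => ?_
          by_cases hi : i = i2
          · rw [if_pos hi, if_pos hi, mul_zero]
          · rw [if_neg hi, if_neg hi, fy, ts', h, if_pos rfl, if_neg hi, div_eq_inv_mul]
            ring
        rw [e1, tn, h, if_pos rfl]
        apply mul_left_cancel₀ hy2
        have e3 : y i2 * -(u l / y i2 * yp + (y i2)⁻¹ * ∑ i, if i = i2 then 0 else L l i * y i) =
            -(y i2 * (u l / y i2 * yp + (y i2)⁻¹ * ∑ i, if i = i2 then 0 else L l i * y i)) := by ring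
        rw [e3, h_div _ _ _ _ hy2]
        linear_combination -e2
      · rw [if_neg e, fy, ts', h, if_pos rfl, if_neg e, mul_div_cancel₀ _ hy2]
  · show (if c = 1 then
        if j = i2 then -∑ i, (if i = i2 then 0 else t (Sum.inr i) * θ.yv t i)
        else θ.yv t i2 * t (Sum.inr j)
      else if c = 0 then
        if j = i1 then -∑ i, (if i = i1 then 0 else t (Sum.inr i) * θ.xv t i)
        else t (Sum.inr j)
      else
        if j = i1 then -∑ i, (if i = i1 then 0 else t (Sum.inr i) * (θ.xv t i - θ.yv t i))
        else t (Sum.inr j)) = b j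
    rcases hb with ⟨hc, hb⟩ | ⟨hc, hb⟩ | ⟨hc, hb⟩
    · have c1 : c ≠ 1 := by
        rw [hc]
        decide
      rw [if_neg c1, if_pos hc]
      by_cases e : j = i1
      · rw [if_pos e, e]
        rw [sum_split1 i1, hx1] at hb
        have e1 : (∑ i, if i = i1 then 0 else t (Sum.inr i) * θ.xv t i) = ∑ i, if i = i1 then 0 else b i * x i := by
          refine Finset.sum_congr rfl fun i _ => ?_
          by_cases hi : i = i1
          · rw [if_pos hi, if_pos hi]
          · rw [if_neg hi, if_neg hi, fx, tr, if_neg c1, if_neg hi]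
        rw [e1]
        linear_combination -hb
      · rw [if_neg e, tr, if_neg c1, if_neg e]
    · rw [if_pos hc]
      by_cases e : j = i2
      · rw [if_pos e, e]
        rw [sum_split1 i2] at hb
        have e1 : (∑ i, if i = i2 then 0 else t (Sum.inr i) * θ.yv t i) =
            (y i2)⁻¹ * ∑ i, if i = i2 then 0 else b i * y i := by
          rw [Finset.mul_sum]
          refine Finset.sum_congr rfl fun i _ => ?_
          by_cases hi : i = i2
          · rw [if_pos hi, if_pos hi, mul_zero]
          · rw [if_neg hi, if_neg hi, fy, tr, if_pos hc, if_neg hi, div_eq_inv_mul]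
            ring
        rw [e1]
        apply mul_left_cancel₀ hy2
        rw [h_neg _ _ hy2]
        linear_combination -hb
      · rw [if_neg e, fy, tr, if_pos hc, if_neg e, mul_div_cancel₀ _ hy2]
    · have c1 : c ≠ 1 := by
        rw [hc]
        decide
      have c0 : c ≠ 0 := by
        rw [hc]
        decide
      rw [if_neg c1, if_neg c0]
      by_cases e : j = i1
      · rw [if_pos e, e]
        rw [sum_split1 i1, hx1, hy1] at hb
        have e1 : (∑ i, if i = i1 then 0 else t (Sum.inr i) * (θ.xv t i - θ.yv t i)) =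
            ∑ i, if i = i1 then 0 else b i * (x i - y i) := by
          refine Finset.sum_congr rfl fun i _ => ?_
          by_cases hi : i = i1
          · rw [if_pos hi, if_pos hi]
          · rw [if_neg hi, if_neg hi, fx, fy, tr, if_neg c1, if_neg hi]
        rw [e1]
        linear_combination -hb
      · rw [if_neg e, tr, if_neg c1, if_neg e]

/-- linking data which admit two lines are values of the parametrisation -/
theorem pw_par {u : Fin n → K} {L : Fin n → Fin n → K} {b : Fin n → K} (h : PW u L b) :
    ∃ (θ : Tp n) (t : Ix n → K), t θ.i0 = 0 ∧ θ.par t = dv u L b := by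
  obtain ⟨i1, i2, xp, yp, x, y, -, hx1, hy2, hxy, h1, h2, h3⟩ := h
  rcases h3 with ⟨e, hb⟩ | ⟨e, hb⟩ | ⟨e, hb⟩
  · exact pw_core hx1 hy2 hxy h1 h2 0 yp (by rw [if_pos rfl, e]) (by rw [if_neg (by decide)]) (Or.inl ⟨rfl, hb⟩)
  · exact pw_core hx1 hy2 hxy h1 h2 1 xp (by rw [if_neg (by decide)]) (by rw [if_pos rfl, e]) (Or.inr (Or.inl ⟨rfl, hb⟩))
  · exact pw_core hx1 hy2 hxy h1 h2 2 xp (by rw [if_neg (by decide)]) (by rw [if_neg (by decide), e])
      (Or.inr (Or.inr ⟨rfl, hb⟩))

/-! The diagonal of the linking matrix plays no role. -/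

theorem w3_diag {u : Fin n → K} {L L' : Fin n → Fin n → K} {b : Fin n → K} {ε : K} (hL : ∀ l j, j ≠ l → L' l j = L l j)
    (h : W3 u L b ε) : W3 u L' b ε := by
  obtain ⟨i1, i2, i3, C, T, v, h12, h13, h23, hC, hsq, T1, k1, T2, k2, T3, k3, hrel, hv0, hv1, hv2⟩ := h
  refine ⟨i1, i2, i3, C, T, v, h12, h13, h23, hC, hsq, T1, k1, T2, k2, T3, k3, fun l => ?_, hv0, hv1, hv2⟩
  have h1 := hrel l
  unfold Pool.Agent.Q202.QT.Rel at h1 ⊢
  have h2 : ∑ j, L' l j • T j = (∑ j, L l j • T j) + (L' l l - L l l) • T l := by
    have h3 : ∀ j, L' l j • T j = L l j • T j + (if j = l then (L' l l - L l l) • T l else 0) := by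
      intro j
      by_cases hj : j = l
      · rw [if_pos hj, hj, sub_smul]
        abel
      · rw [if_neg hj, add_zero, hL l j hj]
    rw [Finset.sum_congr rfl fun j _ => h3 j, Finset.sum_add_distrib]
    simp
  rw [h2, ← add_assoc, add_mul, mul_add, Matrix.smul_mul, Matrix.mul_smul, hsq l, smul_zero, add_zero, add_zero]
  exact h1

theorem pw_diag {u : Fin n → K} {L L' : Fin n → Fin n → K} {b : Fin n → K} (hL : ∀ l j, j ≠ l → L' l j = L l j)
    (h : PW u L b) : PW u L' b := by
  obtain ⟨i1, i2, xp, yp, x, y, h12, hx1, hy2, hxy, h1, h2, h3⟩ := h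
  refine ⟨i1, i2, xp, yp, x, y, h12, hx1, hy2, hxy, fun l hl => ?_, fun l hl => ?_, h3⟩
  · rw [← h1 l hl]
    congr 1
    refine Finset.sum_congr rfl fun j _ => ?_
    by_cases hj : j = l
    · rw [hj, (hxy l).resolve_left hl, mul_zero, mul_zero]
    · rw [hL l j hj]
  · rw [← h2 l hl]
    congr 1
    refine Finset.sum_congr rfl fun j _ => ?_
    by_cases hj : j = l
    · rw [hj, (hxy l).resolve_right hl, mul_zero, mul_zero]
    · rw [hL l j hj]

end

end Pool.Agent.J6H36.FM
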